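import Mathlib

set_option autoImplicit false

namespace Pool.Agent.P.MP_c8ecb2_nt.H39

open Filter

/-- Asymptotic context: an ultrafilter, a size parameter tending to infinity, and a base. -/
structure Ctx (ι : Type) where
  U : Ultrafilter ι
  ℓ : ι → ℕ
  b : ℕ
  hb : 2 ≤ b
  hℓ : Tendsto ℓ U atTop

/-- `x` has denominator dividing `b ^ d`. -/
def Den (b d : ℕ) (x : ℝ) : Prop := ∃ m : ℤ, x = m / (b : ℝ) ^ d

theorem Den.mono {b d d' : ℕ} (hb : 2 ≤ b) {x : ℝ} (h : Den b d x) (hd : d ≤ d') : Den b d' x := by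
  obtain ⟨m, rfl⟩ := h
  obtain ⟨k, rfl⟩ := Nat.exists_eq_add_of_le hd
  have : (b : ℝ) ≠ 0 := by positivity
  refine ⟨m * (b : ℤ) ^ k, ?_⟩
  push_cast
  field_simp
  ring

theorem Den.add {b d : ℕ} {x y : ℝ} (h : Den b d x) (h' : Den b d y) : Den b d (x + y) := by
  obtain ⟨m, rfl⟩ := h
  obtain ⟨m', rfl⟩ := h'
  exact ⟨m + m', by push_cast; ring⟩

theorem Den.neg {b d : ℕ} {x : ℝ} (h : Den b d x) : Den b d (-x) := by
  obtain ⟨m, rfl⟩ := h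
  exact ⟨-m, by push_cast; ring⟩

theorem Den.sub {b d : ℕ} {x y : ℝ} (h : Den b d x) (h' : Den b d y) : Den b d (x - y) := by
  rw [sub_eq_add_neg]; exact h.add h'.neg

theorem Den.mul {b d d' : ℕ} {x y : ℝ} (h : Den b d x) (h' : Den b d' y) :
    Den b (d + d') (x * y) := by
  obtain ⟨m, rfl⟩ := h
  obtain ⟨m', rfl⟩ := h'
  exact ⟨m * m', by push_cast; rw [pow_add, div_mul_div_comm]⟩

theorem Den.zero (b d : ℕ) : Den b d 0 := ⟨0, by simp⟩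

theorem Den.int (b : ℕ) (m : ℤ) : Den b 0 m := ⟨m, by simp⟩

theorem Den.sum {b d : ℕ} {J : Type} (S : Finset J) (f : J → ℝ) (h : ∀ a ∈ S, Den b d (f a)) :
    Den b d (∑ a ∈ S, f a) :=
  Finset.sum_induction f (Den b d) (fun _ _ => Den.add) (Den.zero b d) h

theorem Den.le_abs {b d : ℕ} (hb : 2 ≤ b) {x : ℝ} (h : Den b d x) (hx : x ≠ 0) :
    1 / (b : ℝ) ^ d ≤ |x| := by
  obtain ⟨m, rfl⟩ := h
  have hm : m ≠ 0 := by rintro rfl; simp at hx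
  have hp : (0 : ℝ) < (b : ℝ) ^ d := by positivity
  rw [abs_div, abs_of_pos hp]
  gcongr
  have : (1 : ℤ) ≤ |m| := Int.one_le_abs hm
  exact_mod_cast this

/-- No point of `T` in the interval `(u, y]`. -/
def Free (T : Finset ℕ) (u y : ℕ) : Prop := ∀ t ∈ T, t ≤ u ∨ y < t

/-- Pointwise version of the coefficient ring. -/
def Ap (b : ℕ) (T : Finset ℕ) (r e : ℕ) (x : ℝ) : Prop :=
  |x| ≤ (b : ℝ) ^ e ∧ ∀ u y, u ≤ y → Free T u y →
    ∃ q, Den b (r * u + e) q ∧ |x - q| ≤ (b : ℝ) ^ e / (b : ℝ) ^ y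

theorem one_le_b {b : ℕ} (hb : 2 ≤ b) : (1 : ℝ) ≤ b := by
  have : (2 : ℝ) ≤ b := by exact_mod_cast hb
  linarith

theorem pw_le {b : ℕ} (hb : 2 ≤ b) {e e' : ℕ} (h : e ≤ e') : (b : ℝ) ^ e ≤ (b : ℝ) ^ e' :=
  pow_le_pow_right₀ (one_le_b hb) h

theorem two_pw {b : ℕ} (hb : 2 ≤ b) (e : ℕ) : 2 * (b : ℝ) ^ e ≤ (b : ℝ) ^ (e + 1) := by
  have : (2 : ℝ) ≤ b := by exact_mod_cast hb
  rw [pow_succ, mul_comm]
  gcongr

theorem add_pw {b : ℕ} (hb : 2 ≤ b) (e e' : ℕ) :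
    (b : ℝ) ^ e + (b : ℝ) ^ e' ≤ (b : ℝ) ^ (e + e' + 1) := by
  have h1 := pw_le hb (Nat.le_add_right e e')
  have h2 := pw_le hb (Nat.le_add_left e' e)
  have := two_pw hb (e + e')
  linarith

theorem nat_le_pw {b : ℕ} (hb : 2 ≤ b) (n : ℕ) : (n : ℝ) ≤ (b : ℝ) ^ n := by
  have h1 : n < 2 ^ n := Nat.lt_two_pow_self
  have h2 : 2 ^ n ≤ b ^ n := Nat.pow_le_pow_left hb n
  have : n ≤ b ^ n := by omega
  exact_mod_cast this

theorem Ap.mono {b : ℕ} (hb : 2 ≤ b) {T T' : Finset ℕ} {r r' e e' : ℕ} {x : ℝ} (h : Ap b T r e x)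
    (hT : T ⊆ T') (hr : r ≤ r') (he : e ≤ e') : Ap b T' r' e' x := by
  refine ⟨h.1.trans (pw_le hb he), fun u y huy hf => ?_⟩
  obtain ⟨q, hq, hq'⟩ := h.2 u y huy (fun t ht => hf t (hT ht))
  refine ⟨q, hq.mono hb (by gcongr), hq'.trans ?_⟩
  have := pw_le hb he
  gcongr

theorem Ap.add {b : ℕ} (hb : 2 ≤ b) {T : Finset ℕ} {r r' e e' : ℕ} {x x' : ℝ} (h : Ap b T r e x)
    (h' : Ap b T r' e' x') : Ap b T (r + r') (e + e' + 1) (x + x') := by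
  refine ⟨(abs_add_le _ _).trans ((add_le_add h.1 h'.1).trans (add_pw hb e e')), fun u y huy hf => ?_⟩
  obtain ⟨q, hq, hq1⟩ := h.2 u y huy hf
  obtain ⟨q', hq', hq1'⟩ := h'.2 u y huy hf
  refine ⟨q + q', (hq.mono hb (by nlinarith)).add (hq'.mono hb (by nlinarith)), ?_⟩
  have h3 : |x + x' - (q + q')| ≤ |x - q| + |x' - q'| := by
    have : x + x' - (q + q') = (x - q) + (x' - q') := by ring
    rw [this]; exact abs_add_le _ _
  have h4 := add_pw hb e e'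
  have hp : (0 : ℝ) < (b : ℝ) ^ y := by positivity
  calc _ ≤ (b : ℝ) ^ e / (b : ℝ) ^ y + (b : ℝ) ^ e' / (b : ℝ) ^ y := by linarith
    _ = ((b : ℝ) ^ e + (b : ℝ) ^ e') / (b : ℝ) ^ y := by ring
    _ ≤ _ := by gcongr

theorem Ap.neg {b : ℕ} {T : Finset ℕ} {r e : ℕ} {x : ℝ} (h : Ap b T r e x) : Ap b T r e (-x) := by
  refine ⟨by rw [abs_neg]; exact h.1, fun u y huy hf => ?_⟩
  obtain ⟨q, hq, hq1⟩ := h.2 u y huy hf
  refine ⟨-q, hq.neg, ?_⟩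
  have : -x - -q = -(x - q) := by ring
  rw [this, abs_neg]; exact hq1

theorem Ap.mul {b : ℕ} (hb : 2 ≤ b) {T : Finset ℕ} {r r' e e' : ℕ} {x x' : ℝ} (h : Ap b T r e x)
    (h' : Ap b T r' e' x') : Ap b T (r + r') (e + e' + 2) (x * x') := by
  have hpe : (0 : ℝ) < (b : ℝ) ^ e := by positivity
  have hpe' : (0 : ℝ) < (b : ℝ) ^ e' := by positivity
  refine ⟨?_, fun u y huy hf => ?_⟩
  · rw [abs_mul]
    calc |x| * |x'| ≤ (b : ℝ) ^ e * (b : ℝ) ^ e' := mul_le_mul h.1 h'.1 (abs_nonneg _) hpe.le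
      _ = (b : ℝ) ^ (e + e') := by ring
      _ ≤ _ := pw_le hb (by omega)
  obtain ⟨q, hq, hq1⟩ := h.2 u y huy hf
  obtain ⟨q', hq', hq1'⟩ := h'.2 u y huy hf
  refine ⟨q * q', (hq.mul hq').mono hb (by nlinarith), ?_⟩
  have hp : (0 : ℝ) < (b : ℝ) ^ y := by positivity
  have hp1 : (1 : ℝ) ≤ (b : ℝ) ^ y := one_le_pow₀ (one_le_b hb)
  have hq2 : |q'| ≤ 2 * (b : ℝ) ^ e' := by
    have h1 : |q'| ≤ |x'| + |x' - q'| := by
      have : q' = x' - (x' - q') := by ring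
      calc |q'| = |x' - (x' - q')| := by rw [← this]
        _ ≤ _ := abs_sub _ _
    have h2 : (b : ℝ) ^ e' / (b : ℝ) ^ y ≤ (b : ℝ) ^ e' := div_le_self hpe'.le hp1
    linarith [h'.1]
  have h3 : x * x' - q * q' = x * (x' - q') + q' * (x - q) := by ring
  have h4 : |x * (x' - q')| ≤ (b : ℝ) ^ e * ((b : ℝ) ^ e' / (b : ℝ) ^ y) := by
    rw [abs_mul]; exact mul_le_mul h.1 hq1' (abs_nonneg _) hpe.le
  have h5 : |q' * (x - q)| ≤ 2 * (b : ℝ) ^ e' * ((b : ℝ) ^ e / (b : ℝ) ^ y) := by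
    rw [abs_mul]; exact mul_le_mul hq2 hq1 (abs_nonneg _) (by positivity)
  have h6 : 3 * (b : ℝ) ^ (e + e') ≤ (b : ℝ) ^ (e + e' + 2) := by
    have h7 := two_pw hb (e + e')
    have h8 := two_pw hb (e + e' + 1)
    have : (0 : ℝ) < (b : ℝ) ^ (e + e') := by positivity
    linarith
  calc |x * x' - q * q'| ≤ |x * (x' - q')| + |q' * (x - q)| := by rw [h3]; exact abs_add_le _ _
    _ ≤ (3 * (b : ℝ) ^ (e + e')) / (b : ℝ) ^ y := by
        have : (3 * (b : ℝ) ^ (e + e')) / (b : ℝ) ^ y = (b : ℝ) ^ e * ((b : ℝ) ^ e' / (b : ℝ) ^ y) +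
          2 * (b : ℝ) ^ e' * ((b : ℝ) ^ e / (b : ℝ) ^ y) := by rw [pow_add]; ring
        linarith
    _ ≤ _ := by gcongr

theorem Ap.int {b : ℕ} (hb : 2 ≤ b) (T : Finset ℕ) (m : ℤ) : Ap b T 0 m.natAbs m := by
  refine ⟨?_, fun u y _ _ => ⟨m, (Den.int b m).mono hb (Nat.zero_le _), by simp; positivity⟩⟩
  have := nat_le_pw hb m.natAbs
  rw [← Int.cast_abs, ← Nat.cast_natAbs]
  exact this

namespace Ctx

variable {ι : Type} (X : Ctx ι)

/-- Polynomially bounded in the size parameter. -/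
def PL (e : ι → ℕ) : Prop := ∃ C : ℕ, ∀ᶠ k in X.U, e k ≤ X.ℓ k ^ C

def Bd (x : ι → ℝ) : Prop := ∃ e, X.PL e ∧ ∀ᶠ k in X.U, |x k| ≤ (X.b : ℝ) ^ e k

def Sm (p : ι → ℕ) (x : ι → ℝ) : Prop :=
  ∃ e, X.PL e ∧ ∀ᶠ k in X.U, |x k| ≤ (X.b : ℝ) ^ e k / (X.b : ℝ) ^ p k

def Un (x : ι → ℝ) : Prop := ∃ e, X.PL e ∧ ∀ᶠ k in X.U, 1 / (X.b : ℝ) ^ e k ≤ |x k|

def O (T : ι → Finset ℕ) (x : ι → ℝ) : Prop :=
  ∃ r e, X.PL e ∧ ∀ᶠ k in X.U, Ap X.b (T k) r (e k) (x k)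

def DenE (d : ι → ℕ) (x : ι → ℝ) : Prop := ∀ᶠ k in X.U, Den X.b (d k) (x k)

variable {X}

theorem ev_ge (X : Ctx ι) (n : ℕ) : ∀ᶠ k in X.U, n ≤ X.ℓ k := X.hℓ.eventually (eventually_ge_atTop n)

theorem PL.mono {e e' : ι → ℕ} (h : X.PL e') (hle : ∀ᶠ k in X.U, e k ≤ e' k) : X.PL e := by
  obtain ⟨C, hC⟩ := h
  exact ⟨C, by filter_upwards [hC, hle] with k h1 h2 using h2.trans h1⟩

theorem PL.const (X : Ctx ι) (c : ℕ) : X.PL fun _ => c :=
  ⟨1, by filter_upwards [X.ev_ge c] with k hk using by simpa using hk⟩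

theorem PL.pow (X : Ctx ι) (c : ℕ) : X.PL fun k => X.ℓ k ^ c := ⟨c, Eventually.of_forall fun _ => le_rfl⟩

theorem PL.mul {e e' : ι → ℕ} (h : X.PL e) (h' : X.PL e') : X.PL fun k => e k * e' k := by
  obtain ⟨C, hC⟩ := h
  obtain ⟨C', hC'⟩ := h'
  exact ⟨C + C', by
    filter_upwards [hC, hC'] with k h1 h2
    rw [pow_add]; exact Nat.mul_le_mul h1 h2⟩

theorem PL.add {e e' : ι → ℕ} (h : X.PL e) (h' : X.PL e') : X.PL fun k => e k + e' k := by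
  obtain ⟨C, hC⟩ := h
  obtain ⟨C', hC'⟩ := h'
  refine ⟨C + C' + 1, ?_⟩
  filter_upwards [hC, hC', X.ev_ge 2] with k h1 h2 h3
  have h4 : X.ℓ k ^ C ≤ X.ℓ k ^ (C + C') := Nat.pow_le_pow_right (by omega) (by omega)
  have h5 : X.ℓ k ^ C' ≤ X.ℓ k ^ (C + C') := Nat.pow_le_pow_right (by omega) (by omega)
  rw [pow_succ]
  nlinarith

theorem PL.addc {e : ι → ℕ} (h : X.PL e) (c : ℕ) : X.PL fun k => e k + c := h.add (PL.const X c)

theorem PL.sum {J : Type} (s : Finset J) (e : J → ι → ℕ) (h : ∀ j ∈ s, X.PL (e j)) :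
    X.PL fun k => ∑ j ∈ s, e j k := by
  classical
  induction s using Finset.induction_on with
  | empty => simpa using PL.const X 0
  | insert a s ha ih =>
    simp only [Finset.sum_insert ha]
    exact (h a (by simp)).add (ih fun j hj => h j (by simp [hj]))

theorem PL.lt_two_pow {e : ι → ℕ} (h : X.PL e) : ∀ᶠ k in X.U, e k < 2 ^ X.ℓ k := by
  obtain ⟨C, hC⟩ := h
  have h1 := tendsto_pow_const_div_const_pow_of_one_lt C (r := 2) (by norm_num)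
  have h2 : ∀ᶠ n : ℕ in atTop, (n : ℝ) ^ C / 2 ^ n < 1 := h1.eventually (gt_mem_nhds one_pos)
  filter_upwards [hC, X.hℓ.eventually h2] with k h3 h4
  rw [div_lt_one (by positivity)] at h4
  have : X.ℓ k ^ C < 2 ^ X.ℓ k := by exact_mod_cast h4
  omega

theorem Bd.add {x y : ι → ℝ} (h : X.Bd x) (h' : X.Bd y) : X.Bd (x + y) := by
  obtain ⟨e, he, h⟩ := h
  obtain ⟨e', he', h'⟩ := h'
  refine ⟨fun k => e k + e' k + 1, (he.add he').addc 1, ?_⟩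
  filter_upwards [h, h'] with k h1 h2
  exact (abs_add_le _ _).trans ((add_le_add h1 h2).trans (add_pw X.hb _ _))

theorem Bd.mul {x y : ι → ℝ} (h : X.Bd x) (h' : X.Bd y) : X.Bd (x * y) := by
  obtain ⟨e, he, h⟩ := h
  obtain ⟨e', he', h'⟩ := h'
  refine ⟨fun k => e k + e' k, he.add he', ?_⟩
  filter_upwards [h, h'] with k h1 h2
  rw [Pi.mul_apply, abs_mul, pow_add]
  exact mul_le_mul h1 h2 (abs_nonneg _) (by positivity)

theorem Bd.neg {x : ι → ℝ} (h : X.Bd x) : X.Bd (-x) := by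
  obtain ⟨e, he, h⟩ := h
  exact ⟨e, he, by filter_upwards [h] with k h1 using by simpa using h1⟩

theorem Bd.sub {x y : ι → ℝ} (h : X.Bd x) (h' : X.Bd y) : X.Bd (x - y) := by
  rw [sub_eq_add_neg]; exact h.add h'.neg

theorem Bd.zero (X : Ctx ι) : X.Bd 0 := ⟨fun _ => 0, PL.const X 0, by simp⟩

theorem Bd.sum {J : Type} (s : Finset J) (f : J → ι → ℝ) (h : ∀ j ∈ s, X.Bd (f j)) :
    X.Bd (∑ j ∈ s, f j) :=
  Finset.sum_induction f X.Bd (fun _ _ => Bd.add) (Bd.zero X) h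

theorem Bd.const (X : Ctx ι) (c : ℝ) : X.Bd fun _ => c := by
  refine ⟨fun _ => ⌈|c|⌉₊, PL.const X _, Eventually.of_forall fun k => ?_⟩
  exact (Nat.le_ceil _).trans (nat_le_pw X.hb _)

theorem Sm.mono {p p' : ι → ℕ} {x : ι → ℝ} (h : X.Sm p x) (hp : ∀ᶠ k in X.U, p' k ≤ p k) :
    X.Sm p' x := by
  obtain ⟨e, he, h⟩ := h
  refine ⟨e, he, ?_⟩
  filter_upwards [h, hp] with k h1 h2
  refine h1.trans ?_
  have := pw_le X.hb h2
  have hb := X.hb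
  gcongr

theorem Sm.congr {p : ι → ℕ} {x y : ι → ℝ} (h : X.Sm p x) (hxy : ∀ᶠ k in X.U, x k = y k) :
    X.Sm p y := by
  obtain ⟨e, he, h⟩ := h
  exact ⟨e, he, by filter_upwards [h, hxy] with k h1 h2 using h2 ▸ h1⟩

theorem Sm.bd {p : ι → ℕ} {x : ι → ℝ} (h : X.Sm p x) : X.Bd x := by
  obtain ⟨e, he, h⟩ := h
  refine ⟨e, he, ?_⟩
  filter_upwards [h] with k h1
  exact h1.trans (div_le_self (by positivity) (one_le_pow₀ (one_le_b X.hb)))

theorem Sm.add {p : ι → ℕ} {x y : ι → ℝ} (h : X.Sm p x) (h' : X.Sm p y) : X.Sm p (x + y) := by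
  obtain ⟨e, he, h⟩ := h
  obtain ⟨e', he', h'⟩ := h'
  refine ⟨fun k => e k + e' k + 1, (he.add he').addc 1, ?_⟩
  filter_upwards [h, h'] with k h1 h2
  refine (abs_add_le _ _).trans ((add_le_add h1 h2).trans ?_)
  rw [← add_div]
  have := add_pw X.hb (e k) (e' k)
  gcongr

theorem Sm.neg {p : ι → ℕ} {x : ι → ℝ} (h : X.Sm p x) : X.Sm p (-x) := by
  obtain ⟨e, he, h⟩ := h
  exact ⟨e, he, by filter_upwards [h] with k h1 using by simpa using h1⟩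

theorem Sm.sub {p : ι → ℕ} {x y : ι → ℝ} (h : X.Sm p x) (h' : X.Sm p y) : X.Sm p (x - y) := by
  rw [sub_eq_add_neg]; exact h.add h'.neg

theorem Sm.zero (X : Ctx ι) (p : ι → ℕ) : X.Sm p 0 :=
  ⟨fun _ => 0, PL.const X 0, Eventually.of_forall fun k => by simp⟩

theorem Sm.sum {p : ι → ℕ} {J : Type} (s : Finset J) (f : J → ι → ℝ) (h : ∀ j ∈ s, X.Sm p (f j)) :
    X.Sm p (∑ j ∈ s, f j) :=
  Finset.sum_induction f (X.Sm p) (fun _ _ => Sm.add) (Sm.zero X p) h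

theorem Sm.bmul {p : ι → ℕ} {x y : ι → ℝ} (h : X.Bd x) (h' : X.Sm p y) : X.Sm p (x * y) := by
  obtain ⟨e, he, h⟩ := h
  obtain ⟨e', he', h'⟩ := h'
  refine ⟨fun k => e k + e' k, he.add he', ?_⟩
  filter_upwards [h, h'] with k h1 h2
  rw [Pi.mul_apply, abs_mul, pow_add, mul_div_assoc]
  exact mul_le_mul h1 h2 (abs_nonneg _) (by positivity)

theorem Sm.mulb {p : ι → ℕ} {x y : ι → ℝ} (h : X.Sm p x) (h' : X.Bd y) : X.Sm p (x * y) := by
  rw [mul_comm]; exact Sm.bmul h' h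

theorem Sm.mul {p p' : ι → ℕ} {x y : ι → ℝ} (h : X.Sm p x) (h' : X.Sm p' y) :
    X.Sm (fun k => p k + p' k) (x * y) := by
  obtain ⟨e, he, h⟩ := h
  obtain ⟨e', he', h'⟩ := h'
  refine ⟨fun k => e k + e' k, he.add he', ?_⟩
  filter_upwards [h, h'] with k h1 h2
  rw [Pi.mul_apply, abs_mul, pow_add, pow_add, ← div_mul_div_comm]
  exact mul_le_mul h1 h2 (abs_nonneg _) (by positivity)

theorem Sm.shift {p c : ι → ℕ} {x : ι → ℝ} (h : X.Sm (fun k => p k + c k) x) :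
    X.Sm p (fun k => (X.b : ℝ) ^ c k * x k) := by
  obtain ⟨e, he, h⟩ := h
  refine ⟨e, he, ?_⟩
  filter_upwards [h] with k h1
  have hb := X.hb
  have hp : (0 : ℝ) < (X.b : ℝ) ^ c k := by positivity
  rw [abs_mul, abs_of_pos hp]
  calc _ ≤ (X.b : ℝ) ^ c k * ((X.b : ℝ) ^ e k / (X.b : ℝ) ^ (p k + c k)) := by gcongr
    _ = _ := by rw [pow_add]; field_simp

theorem Sm.cancel {p : ι → ℕ} {u x : ι → ℝ} (hu : X.Un u) (h : X.Sm p (u * x)) : X.Sm p x := by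
  obtain ⟨e, he, h⟩ := h
  obtain ⟨e', he', h'⟩ := hu
  refine ⟨fun k => e k + e' k, he.add he', ?_⟩
  filter_upwards [h, h'] with k h1 h2
  have hb := X.hb
  have hp : (0 : ℝ) < (X.b : ℝ) ^ e' k := by positivity
  rw [Pi.mul_apply, abs_mul] at h1
  have h3 : 1 / (X.b : ℝ) ^ e' k * |x k| ≤ (X.b : ℝ) ^ e k / (X.b : ℝ) ^ p k :=
    (mul_le_mul_of_nonneg_right h2 (abs_nonneg _)).trans h1
  rw [one_div, inv_mul_le_iff₀ hp] at h3
  refine h3.trans (le_of_eq ?_)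
  rw [pow_add]; ring

theorem Un.mul {x y : ι → ℝ} (h : X.Un x) (h' : X.Un y) : X.Un (x * y) := by
  obtain ⟨e, he, h⟩ := h
  obtain ⟨e', he', h'⟩ := h'
  refine ⟨fun k => e k + e' k, he.add he', ?_⟩
  filter_upwards [h, h'] with k h1 h2
  rw [Pi.mul_apply, abs_mul, pow_add, ← one_div_mul_one_div]
  exact mul_le_mul h1 h2 (by positivity) (abs_nonneg _)

theorem Un.int (X : Ctx ι) (m : ℤ) (hm : m ≠ 0) : X.Un fun _ => (m : ℝ) := by
  refine ⟨fun _ => 0, PL.const X 0, Eventually.of_forall fun k => ?_⟩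
  have : (1 : ℤ) ≤ |m| := Int.one_le_abs hm
  simp only [pow_zero, div_one]
  exact_mod_cast this

theorem O.mono {T T' : ι → Finset ℕ} {x : ι → ℝ} (h : X.O T x) (hT : ∀ k, T k ⊆ T' k) :
    X.O T' x := by
  obtain ⟨r, e, he, h⟩ := h
  exact ⟨r, e, he, by filter_upwards [h] with k h1 using h1.mono X.hb (hT k) le_rfl le_rfl⟩

theorem O.bd {T : ι → Finset ℕ} {x : ι → ℝ} (h : X.O T x) : X.Bd x := by
  obtain ⟨r, e, he, h⟩ := h
  exact ⟨e, he, by filter_upwards [h] with k h1 using h1.1⟩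

theorem O.add {T : ι → Finset ℕ} {x y : ι → ℝ} (h : X.O T x) (h' : X.O T y) : X.O T (x + y) := by
  obtain ⟨r, e, he, h⟩ := h
  obtain ⟨r', e', he', h'⟩ := h'
  exact ⟨r + r', fun k => e k + e' k + 1, (he.add he').addc 1,
    by filter_upwards [h, h'] with k h1 h2 using h1.add X.hb h2⟩

theorem O.mul {T : ι → Finset ℕ} {x y : ι → ℝ} (h : X.O T x) (h' : X.O T y) : X.O T (x * y) := by
  obtain ⟨r, e, he, h⟩ := h
  obtain ⟨r', e', he', h'⟩ := h'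
  exact ⟨r + r', fun k => e k + e' k + 2, (he.add he').addc 2,
    by filter_upwards [h, h'] with k h1 h2 using h1.mul X.hb h2⟩

theorem O.neg {T : ι → Finset ℕ} {x : ι → ℝ} (h : X.O T x) : X.O T (-x) := by
  obtain ⟨r, e, he, h⟩ := h
  exact ⟨r, e, he, by filter_upwards [h] with k h1 using h1.neg⟩

theorem O.sub {T : ι → Finset ℕ} {x y : ι → ℝ} (h : X.O T x) (h' : X.O T y) : X.O T (x - y) := by
  rw [sub_eq_add_neg]; exact h.add h'.neg

theorem O.int (X : Ctx ι) (T : ι → Finset ℕ) (m : ℤ) : X.O T fun _ => (m : ℝ) :=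
  ⟨0, fun _ => m.natAbs, PL.const X _, Eventually.of_forall fun k => Ap.int X.hb (T k) m⟩

theorem O.zero (X : Ctx ι) (T : ι → Finset ℕ) : X.O T 0 := by
  have := O.int X T 0
  simp only [Int.cast_zero] at this
  exact this

theorem O.one (X : Ctx ι) (T : ι → Finset ℕ) : X.O T 1 := by
  have := O.int X T 1
  simp only [Int.cast_one] at this
  exact this

theorem O.two (X : Ctx ι) (T : ι → Finset ℕ) : X.O T 2 := by
  have := (O.one X T).add (O.one X T)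
  rwa [one_add_one_eq_two] at this

theorem Un.two (X : Ctx ι) : X.Un 2 := by
  have := Un.int X 2 (by norm_num)
  simp only [Int.cast_ofNat] at this
  exact this

theorem O.sum {T : ι → Finset ℕ} {J : Type} (s : Finset J) (f : J → ι → ℝ)
    (h : ∀ j ∈ s, X.O T (f j)) : X.O T (∑ j ∈ s, f j) :=
  Finset.sum_induction f (X.O T) (fun _ _ => O.add) (O.zero X T) h

/-- Approximation of a coefficient on a free range. -/
theorem O.approx {T : ι → Finset ℕ} {x : ι → ℝ} (h : X.O T x) {u y : ι → ℕ}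
    (hf : ∀ᶠ k in X.U, 1 ≤ u k ∧ u k ≤ y k ∧ Free (T k) (u k) (y k)) :
    ∃ q : ι → ℝ, X.DenE (fun k => u k * 2 ^ X.ℓ k) q ∧ X.Sm y (x - q) := by
  obtain ⟨r, e, he, h⟩ := h
  have h1 : ∀ᶠ k in X.U, ∃ q, Den X.b (u k * 2 ^ X.ℓ k) q ∧
      |x k - q| ≤ (X.b : ℝ) ^ e k / (X.b : ℝ) ^ y k := by
    filter_upwards [h, hf, (he.addc r).lt_two_pow] with k h1 h2 h3
    obtain ⟨q, hq, hq'⟩ := h1.2 _ _ h2.2.1 h2.2.2
    exact ⟨q, hq.mono X.hb (by nlinarith [h2.1]), hq'⟩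
  obtain ⟨q, hq⟩ := h1.choice
  exact ⟨q, hq.mono fun k h => h.1, e, he, hq.mono fun k h => h.2⟩

theorem DenE.mono {d d' : ι → ℕ} {x : ι → ℝ} (h : X.DenE d x) (hd : ∀ᶠ k in X.U, d k ≤ d' k) :
    X.DenE d' x := by
  filter_upwards [h, hd] with k h1 h2 using h1.mono X.hb h2

theorem DenE.add {d : ι → ℕ} {x y : ι → ℝ} (h : X.DenE d x) (h' : X.DenE d y) :
    X.DenE d (x + y) := by
  filter_upwards [h, h'] with k h1 h2 using h1.add h2

theorem DenE.sub {d : ι → ℕ} {x y : ι → ℝ} (h : X.DenE d x) (h' : X.DenE d y) :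
    X.DenE d (x - y) := by
  filter_upwards [h, h'] with k h1 h2 using h1.sub h2

theorem DenE.mul {d d' : ι → ℕ} {x y : ι → ℝ} (h : X.DenE d x) (h' : X.DenE d' y) :
    X.DenE (fun k => d k + d' k) (x * y) := by
  filter_upwards [h, h'] with k h1 h2 using h1.mul h2

theorem DenE.sum {d : ι → ℕ} {J : Type} (s : Finset J) (f : J → ι → ℝ)
    (h : ∀ j ∈ s, X.DenE d (f j)) : X.DenE d (∑ j ∈ s, f j) :=
  Finset.sum_induction f (X.DenE d) (fun _ _ => DenE.add)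
    (Eventually.of_forall fun _ => Den.zero _ _) h

/-- A number with denominator `b ^ d` which is much smaller than `b ^ (-d)` vanishes. -/
theorem DenE.eq_zero {d p : ι → ℕ} {x : ι → ℝ} (h : X.DenE d x) (hs : X.Sm p x)
    (hp : ∀ᶠ k in X.U, d k + 2 ^ X.ℓ k ≤ p k) : ∀ᶠ k in X.U, x k = 0 := by
  obtain ⟨e, he, hs⟩ := hs
  filter_upwards [h, hs, hp, he.lt_two_pow] with k h1 h2 h3 h4
  by_contra hx
  have h5 := (h1.le_abs X.hb hx).trans h2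
  have hb := X.hb
  rw [div_le_div_iff₀ (by positivity) (by positivity), one_mul, ← pow_add] at h5
  have h6 : (1 : ℝ) < X.b := by exact_mod_cast (by omega : 1 < X.b)
  have := (pow_le_pow_iff_right₀ h6).1 h5
  omega

theorem Un.ne_of_sm {p : ι → ℕ} {u v : ι → ℝ} (hu : X.Un u) (h : X.Sm p (u - v))
    (hp : ∀ᶠ k in X.U, 2 ^ X.ℓ k ≤ p k) : ∀ᶠ k in X.U, v k ≠ 0 := by
  obtain ⟨e, he, h⟩ := h
  obtain ⟨e', he', h'⟩ := hu
  filter_upwards [h, h', hp, (he.add he').lt_two_pow] with k h1 h2 h3 h4 hv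
  rw [Pi.sub_apply, hv, sub_zero] at h1
  have h5 := h2.trans h1
  have hb := X.hb
  rw [div_le_div_iff₀ (by positivity) (by positivity), one_mul, ← pow_add] at h5
  have h6 : (1 : ℝ) < X.b := by exact_mod_cast (by omega : 1 < X.b)
  have := (pow_le_pow_iff_right₀ h6).1 h5
  omega

end Ctx

end Pool.Agent.P.MP_c8ecb2_nt.H39
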