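import Pool.Agent.P.MP_c8ecb2_nt.H39.Basic

set_option autoImplicit false

namespace Pool.Agent.P.MP_c8ecb2_nt.H39

open Finset

/-- The value of a finite signed expansion. -/
noncomputable def val (b : ℕ) {J : Type} (S : Finset J) (pos : J → ℕ) (t : J → ℤ) : ℝ :=
  ∑ a ∈ S, (t a : ℝ) / (b : ℝ) ^ pos a

variable {b : ℕ} {J : Type}

theorem val_den (hb : 2 ≤ b) {S : Finset J} {pos : J → ℕ} (t : J → ℤ) {d : ℕ}
    (h : ∀ a ∈ S, pos a ≤ d) : Den b d (val b S pos t) :=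
  Den.sum S _ fun a ha => Den.mono hb ⟨t a, rfl⟩ (h a ha)

theorem val_abs_le (hb : 2 ≤ b) {S : Finset J} {pos : J → ℕ} {t : J → ℤ} {y e N : ℕ}
    (h : ∀ a ∈ S, y ≤ pos a) (ht : ∀ a ∈ S, |(t a : ℝ)| ≤ (b : ℝ) ^ e) (hN : S.card ≤ N) :
    |val b S pos t| ≤ (b : ℝ) ^ (e + N) / (b : ℝ) ^ y := by
  have h1 : ∀ a ∈ S, |(t a : ℝ) / (b : ℝ) ^ pos a| ≤ (b : ℝ) ^ e / (b : ℝ) ^ y := by
    intro a ha
    rw [abs_div, abs_of_pos (by positivity : (0 : ℝ) < (b : ℝ) ^ pos a)]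
    have := pw_le hb (h a ha)
    have := ht a ha
    gcongr
  have h2 : (S.card : ℝ) ≤ (b : ℝ) ^ N := by
    have : (S.card : ℝ) ≤ N := by exact_mod_cast hN
    exact this.trans (nat_le_pw hb N)
  calc |val b S pos t| ≤ ∑ a ∈ S, |(t a : ℝ) / (b : ℝ) ^ pos a| := abs_sum_le_sum_abs _ _
    _ ≤ S.card • ((b : ℝ) ^ e / (b : ℝ) ^ y) := sum_le_card_nsmul _ _ _ h1
    _ = S.card * ((b : ℝ) ^ e / (b : ℝ) ^ y) := by rw [nsmul_eq_mul]
    _ ≤ (b : ℝ) ^ N * ((b : ℝ) ^ e / (b : ℝ) ^ y) := by gcongr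
    _ = _ := by rw [pow_add]; ring

theorem val_split (S : Finset J) (pos : J → ℕ) (t : J → ℤ) (P : J → Prop) [DecidablePred P] :
    val b S pos t = val b (S.filter P) pos t + val b (S.filter fun a => ¬ P a) pos t :=
  (sum_filter_add_sum_filter_not S P _).symm

theorem val_mul (S S' : Finset J) (pos : J → ℕ) (t t' : J → ℤ) :
    val b S pos t * val b S' pos t' =
      val b (S ×ˢ S') (fun a => pos a.1 + pos a.2) (fun a => t a.1 * t' a.2) := by
  unfold val
  rw [sum_mul_sum, sum_product]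
  refine sum_congr rfl fun a _ => sum_congr rfl fun a' _ => ?_
  push_cast
  rw [pow_add, div_mul_div_comm]

theorem val_shift (hb : 2 ≤ b) {S : Finset J} {pos : J → ℕ} (t : J → ℤ) {c : ℕ}
    (h : ∀ a ∈ S, c ≤ pos a) :
    val b S (fun a => pos a - c) t = (b : ℝ) ^ c * val b S pos t := by
  unfold val
  rw [mul_sum]
  refine sum_congr rfl fun a ha => ?_
  obtain ⟨k, hk⟩ := Nat.exists_eq_add_of_le (h a ha)
  have : (b : ℝ) ≠ 0 := by positivity
  beta_reduce
  rw [hk, Nat.add_sub_cancel_left, pow_add]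
  field_simp

theorem val_ap (hb : 2 ≤ b) {S : Finset J} {pos : J → ℕ} {t : J → ℤ} {e N : ℕ} {T : Finset ℕ}
    (hT : ∀ a ∈ S, pos a ∈ T) (ht : ∀ a ∈ S, |(t a : ℝ)| ≤ (b : ℝ) ^ e) (hN : S.card ≤ N) :
    Ap b T 1 (e + N) (val b S pos t) := by
  refine ⟨?_, fun u y _ hf => ?_⟩
  · simpa using val_abs_le hb (y := 0) (fun a _ => Nat.zero_le _) ht hN
  · refine ⟨val b (S.filter fun a => pos a ≤ u) pos t, val_den hb t fun a ha => ?_, ?_⟩
    · have := (mem_filter.1 ha).2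
      omega
    · rw [val_split S pos t fun a => pos a ≤ u, add_sub_cancel_left]
      refine val_abs_le hb (fun a ha => ?_) (fun a ha => ht a (mem_filter.1 ha).1)
        ((card_filter_le _ _).trans hN)
      have h1 := mem_filter.1 ha
      have := hf _ (hT a h1.1)
      omega

/-- Pigeonhole: a gap of length `g` starting within distance `N * g` of `w`. -/
theorem gap (S : Finset J) (pos : J → ℕ) (N w g : ℕ) (hN : S.card ≤ N) :
    ∃ z, w ≤ z ∧ z ≤ w + N * g ∧ ∀ a ∈ S, pos a ≤ z ∨ z + g < pos a := by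
  classical
  by_contra hcon
  push Not at hcon
  have h1 : ∀ i : Fin (N + 1), ∃ a ∈ S, w + i * g < pos a ∧ pos a ≤ w + i * g + g := by
    intro i
    have hi : (i : ℕ) ≤ N := Nat.lt_succ_iff.1 i.2
    exact hcon (w + i * g) (by omega) (by have := Nat.mul_le_mul_right g hi; omega)
  choose f hf using h1
  have h2 : (univ : Finset (Fin (N + 1))).card ≤ S.card := by
    refine card_le_card_of_injOn f (fun i _ => (hf i).1) fun i _ j _ hij => ?_
    have hi := (hf i).2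
    have hj := (hf j).2
    rw [hij] at hi
    apply Fin.ext
    by_contra hne
    rcases Nat.lt_or_gt_of_ne hne with h | h
    · have := Nat.mul_le_mul_right g (Nat.succ_le_of_lt h)
      rw [Nat.succ_mul] at this
      omega
    · have := Nat.mul_le_mul_right g (Nat.succ_le_of_lt h)
      rw [Nat.succ_mul] at this
      omega
  simp at h2
  omega

/-- Every tail of the expansion starting at a point of the support is not too small. -/
def Val (b : ℕ) {J : Type} {n : ℕ} (S : Finset J) (pos : J → ℕ) (t : Fin n → J → ℤ) (μ : ℕ) : Prop :=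
  ∀ a ∈ S, ∀ y, pos a + μ ≤ y → ∃ j, 1 / (b : ℝ) ^ (pos a + μ) ≤
    |val b (S.filter fun a' => pos a ≤ pos a' ∧ pos a' < y) pos (t j)|

/-- Removing all cancellations from a vector expansion. -/
theorem reduce (hb : 2 ≤ b) {n : ℕ} (S : Finset J) (pos : J → ℕ) (t : Fin n → J → ℤ) :
    ∃ S' ⊆ S, (∀ j, val b S' pos (t j) = val b S pos (t j)) ∧
      ∀ e N, S.card ≤ N → (∀ j, ∀ a ∈ S, |(t j a : ℝ)| ≤ (b : ℝ) ^ e) →
        Val b S' pos t (N * (e + N) + 1) := by
  classical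
  obtain ⟨S', hS', hmin⟩ := exists_min_image
    (S.powerset.filter fun S' => ∀ j, val b S' pos (t j) = val b S pos (t j)) card
    ⟨S, by simp⟩
  rw [mem_filter, mem_powerset] at hS'
  refine ⟨S', hS'.1, hS'.2, fun e N hN ht a ha y hy => ?_⟩
  have hN' : S'.card ≤ N := (card_le_card hS'.1).trans hN
  obtain ⟨z, hz1, hz2, hz⟩ := gap S' pos N (pos a) (e + N) hN'
  set Bk := S'.filter fun a' => pos a ≤ pos a' ∧ pos a' ≤ z with hBk
  have hne : ∃ j, val b Bk pos (t j) ≠ 0 := by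
    by_contra hcon
    push Not at hcon
    have h1 := hmin (S'.filter fun a' => ¬ (pos a ≤ pos a' ∧ pos a' ≤ z)) (by
      rw [mem_filter, mem_powerset]
      refine ⟨(filter_subset _ _).trans hS'.1, fun j => ?_⟩
      rw [← hS'.2 j, val_split S' pos (t j) fun a' => pos a ≤ pos a' ∧ pos a' ≤ z, hcon j, zero_add])
    have h2 : (S'.filter fun a' => ¬ (pos a ≤ pos a' ∧ pos a' ≤ z)).card < S'.card := by
      apply card_lt_card
      rw [ssubset_iff_of_subset (filter_subset _ _)]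
      exact ⟨a, ha, by simp [hz1]⟩
    omega
  obtain ⟨j, hj⟩ := hne
  refine ⟨j, ?_⟩
  have h1 : 1 / (b : ℝ) ^ z ≤ |val b Bk pos (t j)| :=
    (val_den hb _ fun a' ha' => (mem_filter.1 ha').2.2).le_abs hb hj
  rw [val_split _ pos (t j) fun a' => pos a' ≤ z]
  have h2 : ((S'.filter fun a' => pos a ≤ pos a' ∧ pos a' < y).filter fun a' => pos a' ≤ z) = Bk := by
    ext a'
    simp only [mem_filter, hBk]
    constructor
    · rintro ⟨⟨h1, h2, _⟩, h4⟩
      exact ⟨h1, h2, h4⟩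
    · rintro ⟨h1, h2, h3⟩
      exact ⟨⟨h1, h2, by omega⟩, h3⟩
  rw [h2]
  have h3 : |val b ((S'.filter fun a' => pos a ≤ pos a' ∧ pos a' < y).filter fun a' => ¬ pos a' ≤ z)
      pos (t j)| ≤ (b : ℝ) ^ (e + N) / (b : ℝ) ^ (z + (e + N) + 1) := by
    refine val_abs_le hb (fun a' ha' => ?_) (fun a' ha' => ?_) ?_
    · have h4 := mem_filter.1 ha'
      have := hz a' (mem_filter.1 h4.1).1
      omega
    · exact ht j a' (hS'.1 (mem_filter.1 (mem_filter.1 ha').1).1)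
    · exact (card_filter_le _ _).trans ((card_filter_le _ _).trans hN')
  have h4 : (b : ℝ) ^ (e + N) / (b : ℝ) ^ (z + (e + N) + 1) = 1 / (b : ℝ) ^ (z + 1) := by
    have : (b : ℝ) ≠ 0 := by positivity
    rw [pow_succ, pow_succ, pow_add (b : ℝ) z]
    field_simp
  have h5 : 2 * (1 / (b : ℝ) ^ (z + 1)) ≤ 1 / (b : ℝ) ^ z := by
    have := two_pw hb z
    rw [mul_one_div, div_le_div_iff₀ (by positivity) (by positivity)]
    linarith
  have h6 : 1 / (b : ℝ) ^ (pos a + (N * (e + N) + 1)) ≤ 1 / (b : ℝ) ^ (z + 1) := by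
    have := pw_le hb (show z + 1 ≤ pos a + (N * (e + N) + 1) by omega)
    gcongr
  rw [h4] at h3
  have h7 := abs_sub_abs_le_abs_add (val b Bk pos (t j))
    (val b ((S'.filter fun a' => pos a ≤ pos a' ∧ pos a' < y).filter fun a' => ¬ pos a' ≤ z) pos (t j))
  linarith

theorem sum_card_le (S : Finset J) (pos : J → ℕ) (x : ℕ → ℕ) (hx : Monotone x) (M : ℕ) :
    ∑ i ∈ range M, (S.filter fun a => x i < pos a ∧ pos a ≤ x (i + 1)).card ≤ S.card := by
  classical
  rw [← card_biUnion]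
  · exact card_le_card (biUnion_subset.2 fun i _ => filter_subset _ _)
  · intro i _ j _ hij
    rw [Function.onFun, disjoint_left]
    intro a h1 h2
    have h3 := (mem_filter.1 h1).2
    have h4 := (mem_filter.1 h2).2
    rcases Nat.lt_or_gt_of_ne hij with h | h
    · have := hx (Nat.succ_le_of_lt h)
      simp only [Nat.succ_eq_add_one] at this
      omega
    · have := hx (Nat.succ_le_of_lt h)
      simp only [Nat.succ_eq_add_one] at this
      omega

/-- A block which is free for `T` and light for `S`. -/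
theorem block (S : Finset J) (pos : J → ℕ) (T : Finset ℕ) (x : ℕ → ℕ) (hx : Monotone x)
    (M a m : ℕ) (hS : S.card ≤ (a + 1) * m) (hM : T.card + m < M) :
    ∃ i < M, Free T (x i) (x (i + 1)) ∧
      (S.filter fun c => x i < pos c ∧ pos c ≤ x (i + 1)).card ≤ a := by
  by_contra hcon
  push Not at hcon
  have h1 := sum_card_le S pos x hx M
  have h2 := sum_card_le T id x hx M
  have h3 : ∀ i ∈ range M, a + 1 ≤ (a + 1) * (T.filter fun c => x i < id c ∧ id c ≤ x (i + 1)).card +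
      (S.filter fun c => x i < pos c ∧ pos c ≤ x (i + 1)).card := by
    intro i hi
    by_cases hf : Free T (x i) (x (i + 1))
    · have := hcon i (mem_range.1 hi) hf
      omega
    · unfold Free at hf
      push Not at hf
      obtain ⟨c, hc, hc'⟩ := hf
      have : 0 < (T.filter fun c => x i < id c ∧ id c ≤ x (i + 1)).card :=
        card_pos.2 ⟨c, mem_filter.2 ⟨hc, hc'⟩⟩
      nlinarith
  have h4 := sum_le_sum h3
  rw [sum_const, card_range, smul_eq_mul, sum_add_distrib, ← mul_sum] at h4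
  have h5 := Nat.mul_le_mul_left (a + 1) h2
  nlinarith

/-- Liouville's inequality for a linear form. -/
theorem liouville_form {α : ℝ} (hirr : Irrational α) (halg : IsAlgebraic ℤ α) (hb : 2 ≤ b) :
    ∃ D : ℕ, ∀ (d e y : ℕ) (u v : ℝ), Den b d u → Den b d v → u ≠ 0 → |u| ≤ (b : ℝ) ^ e →
      |u * α - v| ≤ (b : ℝ) ^ e / (b : ℝ) ^ y → y ≤ D * (d + e + 1) := by
  obtain ⟨f, hf0, hf⟩ := halg
  obtain ⟨A, hA, hL⟩ := Liouville.exists_pos_real_of_irrational_root hirr hf0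
    (by rw [Polynomial.eval_map_algebraMap]; exact hf)
  refine ⟨f.natDegree + 1 + ⌈A⌉₊, fun d e y u v hu hv hu0 hue h => ?_⟩
  obtain ⟨m, rfl⟩ := hu
  obtain ⟨m', rfl⟩ := hv
  have hm : m ≠ 0 := by rintro rfl; simp at hu0
  have hp : (0 : ℝ) < (b : ℝ) ^ d := by positivity
  obtain ⟨k, hk⟩ : ∃ k : ℕ, (|m| : ℤ) = k + 1 := ⟨m.natAbs - 1, by
    have := Int.natAbs_pos.2 hm
    rw [← Int.natCast_natAbs]; omega⟩
  have hk' : |(m : ℝ)| = k + 1 := by exact_mod_cast hk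
  have h1 := hL (m' * m.sign) k
  have hm1 : |(m : ℝ)| ≤ (b : ℝ) ^ (d + e) := by
    rw [abs_div, abs_of_pos hp, div_le_iff₀ hp] at hue
    rw [pow_add, mul_comm]; exact hue
  have h2 : |α - ((m' * m.sign : ℤ) : ℝ) / (k + 1)| ≤ (b : ℝ) ^ (d + e) / (b : ℝ) ^ y := by
    have hmr : (m : ℝ) ≠ 0 := by exact_mod_cast hm
    have h3 : ((m' * m.sign : ℤ) : ℝ) / (k + 1) = m' / m := by
      rw [← hk']
      have : (m.sign : ℝ) * m = |(m : ℝ)| := by exact_mod_cast Int.sign_mul_self_eq_abs m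
      push_cast
      rw [div_eq_div_iff (by positivity) hmr, ← this]
      ring
    rw [h3]
    have h4 : α - m' / m = ((b : ℝ) ^ d / m) * (m / (b : ℝ) ^ d * α - m' / (b : ℝ) ^ d) := by
      field_simp
    rw [h4, abs_mul, abs_div, abs_of_pos hp, pow_add, mul_div_assoc]
    have h5 : (b : ℝ) ^ d / |(m : ℝ)| ≤ (b : ℝ) ^ d := div_le_self hp.le (by rw [hk']; linarith [Nat.cast_nonneg (α := ℝ) k])
    exact mul_le_mul h5 h (abs_nonneg _) hp.le
  have h3 : ((k : ℝ) + 1) ^ f.natDegree ≤ ((b : ℝ) ^ (d + e)) ^ f.natDegree := by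
    rw [← hk']; gcongr
  have h4 : A ≤ (b : ℝ) ^ ⌈A⌉₊ := (Nat.le_ceil A).trans (nat_le_pw hb _)
  have h5 : (1 : ℝ) ≤ ((b : ℝ) ^ (d + e)) ^ f.natDegree * ((b : ℝ) ^ (d + e) / (b : ℝ) ^ y * (b : ℝ) ^ ⌈A⌉₊) := by
    refine h1.trans ?_
    gcongr
  have h6 : (b : ℝ) ^ y ≤ (b : ℝ) ^ ((d + e) * f.natDegree + (d + e) + ⌈A⌉₊) := by
    rw [pow_add, pow_add, pow_mul]
    have hy : (0 : ℝ) < (b : ℝ) ^ y := by positivity
    have : ((b : ℝ) ^ (d + e)) ^ f.natDegree * ((b : ℝ) ^ (d + e) / (b : ℝ) ^ y * (b : ℝ) ^ ⌈A⌉₊) =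
        (((b : ℝ) ^ (d + e)) ^ f.natDegree * (b : ℝ) ^ (d + e) * (b : ℝ) ^ ⌈A⌉₊) / (b : ℝ) ^ y := by ring
    rw [this, le_div_iff₀ hy, one_mul] at h5
    exact h5
  have h7 : (1 : ℝ) < b := by exact_mod_cast (by omega : 1 < b)
  have h8 := (pow_le_pow_iff_right₀ h7).1 h6
  nlinarith [Nat.zero_le (f.natDegree), Nat.zero_le (⌈A⌉₊ * (d + e))]

end Pool.Agent.P.MP_c8ecb2_nt.H39
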