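import Pool.Agent.P.MP_c8ecb2_nt.H39.Init

set_option autoImplicit false

namespace Pool.Agent.P.MP_c8ecb2_nt.H39

open Filter Finset

theorem floor_succ {b : ℕ} (hb : 2 ≤ b) (x : ℝ) (i : ℕ) :
    ⌊x * (b : ℝ) ^ (i + 1)⌋ = b * ⌊x * (b : ℝ) ^ i⌋ + ⌊x * (b : ℝ) ^ (i + 1)⌋ % b := by
  have h0 : (b : ℝ) ≠ 0 := by positivity
  have h1 : ⌊x * (b : ℝ) ^ i⌋ = ⌊x * (b : ℝ) ^ (i + 1)⌋ / b := by
    rw [← Int.floor_div_natCast]
    congr 1
    field_simp
    ring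
  rw [h1, Int.mul_ediv_add_emod]

/-- The signed digits of `(b ^ q - 1) x`. -/
noncomputable def dg (b q : ℕ) (x : ℝ) (i : ℕ) : ℤ :=
  if i = 0 then ⌊x * (b : ℝ) ^ q⌋ - ⌊x⌋ else ⌊x * (b : ℝ) ^ (i + q)⌋ % b - ⌊x * (b : ℝ) ^ i⌋ % b

theorem dg_sum {b : ℕ} (hb : 2 ≤ b) (q : ℕ) (x : ℝ) (N : ℕ) :
    val b (range (N + 1)) id (dg b q x) =
      ((⌊x * (b : ℝ) ^ (N + q)⌋ - ⌊x * (b : ℝ) ^ N⌋ : ℤ) : ℝ) / (b : ℝ) ^ N := by
  have h0 : (b : ℝ) ≠ 0 := by positivity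
  unfold val
  induction N with
  | zero => simp [dg]
  | succ N ih =>
    rw [sum_range_succ, ih]
    have h1 := floor_succ hb x N
    have h2 := floor_succ hb x (N + q)
    rw [show N + q + 1 = N + 1 + q by ring] at h2
    have h3 : ⌊x * (b : ℝ) ^ (N + 1 + q)⌋ - ⌊x * (b : ℝ) ^ (N + 1)⌋ =
        b * (⌊x * (b : ℝ) ^ (N + q)⌋ - ⌊x * (b : ℝ) ^ N⌋) + dg b q x (N + 1) := by
      unfold dg
      rw [if_neg (Nat.succ_ne_zero N)]
      linarith
    rw [h3]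
    push_cast
    simp only [id]
    field_simp
    ring

theorem dg_app {b : ℕ} (hb : 2 ≤ b) (q : ℕ) (x : ℝ) (N : ℕ) :
    |((b : ℝ) ^ q - 1) * x - val b (range (N + 1)) id (dg b q x)| ≤ 1 / (b : ℝ) ^ N := by
  have h0 : (0 : ℝ) < (b : ℝ) ^ N := by positivity
  rw [dg_sum hb]
  have h1 : ((b : ℝ) ^ q - 1) * x -
      ((⌊x * (b : ℝ) ^ (N + q)⌋ - ⌊x * (b : ℝ) ^ N⌋ : ℤ) : ℝ) / (b : ℝ) ^ N =
      (Int.fract (x * (b : ℝ) ^ (N + q)) - Int.fract (x * (b : ℝ) ^ N)) / (b : ℝ) ^ N := by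
    unfold Int.fract
    push_cast
    field_simp
    ring
  rw [h1, abs_div, abs_of_pos h0]
  gcongr
  have := Int.fract_nonneg (x * (b : ℝ) ^ (N + q))
  have := Int.fract_lt_one (x * (b : ℝ) ^ (N + q))
  have := Int.fract_nonneg (x * (b : ℝ) ^ N)
  have := Int.fract_lt_one (x * (b : ℝ) ^ N)
  rw [abs_le]
  constructor <;> linarith

theorem dg_le {b : ℕ} (hb : 2 ≤ b) (q : ℕ) (x : ℝ) (i : ℕ) :
    |dg b q x i| ≤ |dg b q x 0| + b := by
  by_cases hi : i = 0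
  · rw [hi]
    linarith [Int.natCast_nonneg b]
  · have hb0 : (0 : ℤ) < b := by omega
    have h1 : |dg b q x i| ≤ b := by
      unfold dg
      rw [if_neg hi, abs_le]
      have := Int.emod_nonneg ⌊x * (b : ℝ) ^ (i + q)⌋ hb0.ne'
      have := Int.emod_lt_of_pos ⌊x * (b : ℝ) ^ (i + q)⌋ hb0
      have := Int.emod_nonneg ⌊x * (b : ℝ) ^ i⌋ hb0.ne'
      have := Int.emod_lt_of_pos ⌊x * (b : ℝ) ^ i⌋ hb0
      constructor <;> linarith
    linarith [abs_nonneg (dg b q x 0)]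

theorem clear_den {J : Type} [Finite J] (r : J → ℚ) :
    ∃ D : ℤ, D ≠ 0 ∧ ∃ z : J → ℤ, ∀ j, (D : ℝ) * (r j : ℝ) = z j := by
  obtain ⟨D, hD⟩ := IsLocalization.exist_integer_multiples_of_finite (nonZeroDivisors ℤ) r
  choose z hz using hD
  refine ⟨D, nonZeroDivisors.coe_ne_zero D, z, fun j => ?_⟩
  have h := hz j
  rw [zsmul_eq_mul, eq_intCast] at h
  exact_mod_cast h.symm

theorem order_ex {n : ℕ} (α : Fin n → ℝ) (K : Subalgebra ℚ ℝ) (hirr : ∃ x ∈ K, Irrational x)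
    (hK : ∀ x ∈ K, x ∈ Submodule.span ℚ (insert 1 (Set.range α))) (c : ℤ) (hc : c ≠ 0) :
    ∃ (m : ℕ) (η : Fin m → ℝ) (Δ : ℤ) (o : Fin m → Fin m → Fin m → ℤ) (s : Fin m)
      (a : Fin m → ℤ) (z : Fin m → Fin n → ℤ), Δ ≠ 0 ∧
      (∀ i j, Δ * η i * η j = ∑ l, o i j l * η l) ∧ Irrational (η s) ∧ IsAlgebraic ℤ (η s) ∧
      ∀ l, η l = a l + ∑ j, z l j * (c * α j) := by
  have hfin : Module.Finite ℚ (Submodule.span ℚ (insert 1 (Set.range α))) :=
    Module.Finite.span_of_finite ℚ ((Set.finite_range α).insert 1)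
  have hKf : Module.Finite ℚ K :=
    Submodule.finiteDimensional_of_le (S₁ := Subalgebra.toSubmodule K) hK
  obtain ⟨m, κ, hκ⟩ := Module.Finite.exists_fin (R := ℚ) (M := K)
  have hsp : ∀ x : K, ∃ r : Fin m → ℚ, (x : ℝ) = ∑ l, (r l : ℝ) * κ l := fun x => by
    have : x ∈ Submodule.span ℚ (Set.range κ) := hκ ▸ Submodule.mem_top
    obtain ⟨r, hr⟩ := (Submodule.mem_span_range_iff_exists_fun ℚ).1 this
    refine ⟨r, ?_⟩
    rw [← hr]
    simp [Rat.smul_def]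
  have hrep : ∀ l, ∃ (r₀ : ℚ) (r : Fin n → ℚ), (κ l : ℝ) = r₀ + ∑ j, (r j : ℝ) * α j := fun l => by
    obtain ⟨r₀, y, hy, h⟩ := Submodule.mem_span_insert.1 (hK _ (κ l).2)
    obtain ⟨r, hr⟩ := (Submodule.mem_span_range_iff_exists_fun ℚ).1 hy
    refine ⟨r₀, r, ?_⟩
    rw [h, ← hr]
    simp [Rat.smul_def]
  choose r₀ r hr using hrep
  obtain ⟨D₀, hD₀, z₀, hz₀⟩ := clear_den r₀
  obtain ⟨D₁, hD₁, z₁, hz₁⟩ := clear_den fun p : Fin m × Fin n => r p.1 p.2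
  choose w hw using fun i j => hsp (κ i * κ j)
  obtain ⟨Δ, hΔ, o, ho⟩ := clear_den fun p : Fin m × Fin m × Fin m => w p.1 p.2.1 p.2.2
  obtain ⟨s, hs⟩ : ∃ s, Irrational (κ s) := by
    by_contra hcon
    simp only [not_exists, Irrational, not_not] at hcon
    choose y hy using hcon
    obtain ⟨x, hx, hxi⟩ := hirr
    obtain ⟨r', hr'⟩ := hsp ⟨x, hx⟩
    refine hxi ⟨∑ l, r' l * y l, ?_⟩
    push_cast
    simp only [hy]
    exact hr'.symm
  have hE : D₀ * D₁ * c ≠ 0 := mul_ne_zero (mul_ne_zero hD₀ hD₁) hc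
  refine ⟨m, fun l => (D₀ * D₁ * c : ℤ) * (κ l : ℝ), Δ, fun i j l => D₀ * D₁ * c * o (i, j, l), s,
    fun l => D₁ * c * z₀ l, fun l j => D₀ * z₁ (l, j), hΔ, fun i j => ?_, hs.intCast_mul hE, ?_,
    fun l => ?_⟩
  · have h1 := hw i j
    push_cast at h1 ⊢
    calc (Δ : ℝ) * (D₀ * D₁ * c * κ i) * (D₀ * D₁ * c * κ j)
        = (D₀ * D₁ * c) * (D₀ * D₁ * c) * Δ * ((κ i : ℝ) * κ j) := by ring
      _ = _ := by
        rw [h1, mul_sum]
        refine sum_congr rfl fun l _ => ?_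
        rw [← ho (i, j, l)]
        ring
  · have h1 : IsAlgebraic ℚ (((D₀ * D₁ * c : ℤ) : K) * κ s) := Algebra.IsAlgebraic.isAlgebraic _
    have h2 := h1.algHom K.val
    rw [IsFractionRing.isAlgebraic_iff ℤ ℚ ℝ]
    simpa using h2
  · beta_reduce
    rw [hr l, mul_add, mul_sum]
    push_cast
    rw [← hz₀ l]
    congr 1
    · ring
    · refine sum_congr rfl fun j _ => ?_
      rw [← hz₁ (l, j)]
      ring

theorem changes {b : ℕ} (hb : 2 ≤ b) {n : ℕ} (α : Fin n → ℝ) (K : Subalgebra ℚ ℝ)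
    (hirr : ∃ x ∈ K, Irrational x)
    (hK : ∀ x ∈ K, x ∈ Submodule.span ℚ (insert 1 (Set.range α))) {q : ℕ} (hq : 1 ≤ q)
    {ε : ℝ} (hε : 0 < ε) :
    ∀ᶠ N : ℕ in atTop, Real.log N ^ (2 - ε) ≤ ((filter (fun i : ℕ => ∃ j,
      ⌊α j * (b : ℝ) ^ (i + q)⌋ % (b : ℤ) ≠ ⌊α j * (b : ℝ) ^ i⌋ % (b : ℤ)) (Icc 1 N)).card : ℝ) := by
  classical
  have hc : (b : ℤ) ^ q - 1 ≠ 0 := by
    have : (1 : ℤ) < (b : ℤ) ^ q := one_lt_pow₀ (by omega) (by omega)
    omega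
  obtain ⟨m, η, Δ, o, s, a, z, hΔ, ho, hi, ha, hη⟩ := order_ex α K hirr hK _ hc
  set C : ℕ → Finset ℕ := fun N => filter (fun i : ℕ => ∃ j,
      ⌊α j * (b : ℝ) ^ (i + q)⌋ % (b : ℤ) ≠ ⌊α j * (b : ℝ) ^ i⌋ % (b : ℤ)) (Icc 1 N) with hC
  set t : Fin m → ℕ → ℤ := fun l i => (if i = 0 then a l else 0) + ∑ j, z l j * dg b q (α j) i
    with ht
  obtain ⟨M, hM⟩ := exists_nat_ge
    (∑ l, (|(a l : ℝ)| + ∑ j, |(z l j : ℝ)| * (|(dg b q (α j) 0 : ℝ)| + b)))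
  have hM' : ∀ l, |(a l : ℝ)| + ∑ j, |(z l j : ℝ)| * (|(dg b q (α j) 0 : ℝ)| + b) ≤ M := fun l =>
    (single_le_sum (f := fun l => |(a l : ℝ)| + ∑ j, |(z l j : ℝ)| * (|(dg b q (α j) 0 : ℝ)| + b))
      (fun _ _ => by positivity) (mem_univ l)).trans hM
  have hval : ∀ N l, val b (insert 0 (C N)) id (t l) =
      a l + ∑ j, z l j * val b (range (N + 1)) id (dg b q (α j)) := fun N l => by
    have h1 : val b (insert 0 (C N)) id (t l) = val b (range (N + 1)) id (t l) := by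
      refine sum_subset (fun i hi => ?_) fun i hi hi' => ?_
      · rcases mem_insert.1 hi with rfl | hi
        · simp
        · have := mem_Icc.1 (mem_filter.1 hi).1
          exact mem_range.2 (by omega)
      · rw [mem_insert, not_or] at hi'
        have h2 : ∀ j, dg b q (α j) i = 0 := fun j => by
          unfold dg
          rw [if_neg hi'.1, sub_eq_zero]
          by_contra h
          have := mem_range.1 hi
          have := hi'.1
          exact hi'.2 (mem_filter.2 ⟨mem_Icc.2 ⟨by omega, by omega⟩, j, h⟩)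
        simp [ht, h2, hi'.1]
    rw [h1]
    unfold val
    simp only [ht, mul_sum]
    rw [sum_comm]
    push_cast
    simp only [add_div, sum_add_distrib, sum_div, id]
    congr 1
    · rw [sum_eq_single 0] <;> simp +contextual
    · exact sum_congr rfl fun i _ => sum_congr rfl fun j _ => by ring
  have key := sparse hb η Δ hΔ o ho s hi ha M (fun N => insert 0 (C N)) t (fun l i => ?_)
    (fun N l => ?_) hε
  · filter_upwards [key] with N hN
    have : ((insert 0 (C N)).card : ℝ) ≤ (C N).card + 1 := by exact_mod_cast card_insert_le _ _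
    linarith
  · refine le_trans ?_ (hM' l)
    simp only [ht]
    push_cast
    refine (abs_add_le _ _).trans (add_le_add ?_ ((abs_sum_le_sum_abs _ _).trans
      (sum_le_sum fun j _ => ?_)))
    · split_ifs <;> simp
    · rw [abs_mul]
      gcongr
      exact_mod_cast dg_le hb q (α j) i
  · rw [hval, hη l, add_sub_add_left_eq_sub, ← sum_sub_distrib]
    refine (abs_sum_le_sum_abs _ _).trans ?_
    have h1 : ∀ j ∈ univ, |(z l j : ℝ) * ((((b : ℤ) ^ q - 1 : ℤ) : ℝ) * α j) -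
        z l j * val b (range (N + 1)) id (dg b q (α j))| ≤
        |(z l j : ℝ)| * (|(dg b q (α j) 0 : ℝ)| + b) / (b : ℝ) ^ N := fun j _ => by
      rw [← mul_sub, abs_mul, mul_div_assoc]
      push_cast
      gcongr
      refine (dg_app hb q (α j) N).trans ?_
      gcongr
      linarith [one_le_b hb, abs_nonneg (dg b q (α j) 0 : ℝ)]
    refine (sum_le_sum h1).trans ?_
    rw [← sum_div]
    gcongr
    linarith [hM' l, abs_nonneg (a l : ℝ)]

theorem quad_alg {n : ℕ} (α : Fin n → ℝ) (j : Fin n) (hj : Irrational (α j)) (u v : ℚ)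
    (h : α j ^ 2 = u * α j + v) : ∃ K : Subalgebra ℚ ℝ, (∃ x ∈ K, Irrational x) ∧
      ∀ x ∈ K, x ∈ Submodule.span ℚ (insert 1 (Set.range α)) := by
  refine ⟨(Submodule.span ℚ {1, α j}).toSubalgebra (Submodule.subset_span (by simp)) ?_,
    ⟨α j, Submodule.subset_span (by simp), hj⟩, fun x hx => ?_⟩
  · intro x y hx hy
    obtain ⟨a, c, rfl⟩ := Submodule.mem_span_pair.1 hx
    obtain ⟨a', c', rfl⟩ := Submodule.mem_span_pair.1 hy
    refine Submodule.mem_span_pair.2 ⟨a * a' + c * c' * v, a * c' + c * a' + c * c' * u, ?_⟩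
    simp only [Rat.smul_def]
    push_cast
    linear_combination (-(c : ℝ) * c') * h
  · exact Submodule.span_mono (Set.insert_subset_insert (by simp)) hx

end Pool.Agent.P.MP_c8ecb2_nt.H39
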