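import Mathlib
import Pool.Agent.P.MP_c8ecb2_nt.H39.Digits

set_option autoImplicit false

namespace Pool.Agent.Results.MP_c8ecb2_nt.DigitChanges

open Pool.Agent.P.MP_c8ecb2_nt.H39 in
/-- If the rational span of `1, α₁, …, αₙ` contains a number field other than `ℚ` (for instance if
some `αⱼ` is a quadratic irrational), then for every `q ≥ 1` the digit columns at positions `i` and
`i + q` differ for at least `(log N) ^ (2 - ε)` positions `i ≤ N`. -/
theorem result :
    ∀ (b : ℕ), 2 ≤ b → ∀ (n : ℕ) (α : Fin n → ℝ),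
      ((∃ K : Subalgebra ℚ ℝ, (∃ x ∈ K, Irrational x) ∧
          ∀ x ∈ K, x ∈ Submodule.span ℚ (insert 1 (Set.range α))) ∨
        ∃ j : Fin n, Irrational (α j) ∧ ∃ u v : ℚ, α j ^ 2 = u * α j + v) →
      ∀ q : ℕ, 1 ≤ q → ∀ ε : ℝ, 0 < ε → ∀ᶠ N : ℕ in Filter.atTop,
        Real.log N ^ (2 - ε) ≤
          ((Finset.filter
            (fun i : ℕ => ∃ j : Fin n, Int.floor (α j * (b : ℝ) ^ (i + q)) % (b : ℤ) ≠
              Int.floor (α j * (b : ℝ) ^ i) % (b : ℤ))
            (Finset.Icc 1 N)).card : ℝ) := by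
  intro b hb n α h q hq ε hε
  obtain ⟨K, h1, h2⟩ := h.elim id fun ⟨j, hj, u, v, h⟩ => quad_alg α j hj u v h
  exact changes hb α K h1 h2 hq hε

end Pool.Agent.Results.MP_c8ecb2_nt.DigitChanges
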