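import Pool.Agent.P.MP_c8ecb2_nt.H39.Step

set_option autoImplicit false

namespace Pool.Agent.P.MP_c8ecb2_nt.H39

open Filter Finset

theorem size_tendsto {Q : ℕ} (hQ : Q ≠ 0) :
    Tendsto (fun N : ℕ => Nat.nthRoot Q (Nat.log 2 N)) atTop atTop := by
  refine tendsto_atTop.2 fun c => ?_
  filter_upwards [eventually_ge_atTop (2 ^ c ^ Q)] with N hN
  rw [Nat.le_nthRoot_iff hQ]
  exact Nat.le_log_of_pow_le (by norm_num) hN

theorem size_bound {Q : ℕ} (hQ : 4 ≤ Q) {ε : ℝ} (hε : 8 ≤ Q * ε) :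
    ∀ᶠ N : ℕ in atTop,
      Real.log N ^ (2 - ε) + 1 ≤ ((Nat.nthRoot Q (Nat.log 2 N) ^ (2 * Q - 5) : ℕ) : ℝ) := by
  have hQ0 : Q ≠ 0 := by omega
  filter_upwards [(size_tendsto hQ0).eventually_ge_atTop (2 ^ (2 * Q - 8) + 1),
    eventually_ge_atTop 3] with N h1 h3
  set l := Nat.nthRoot Q (Nat.log 2 N) with hl
  have hN : (3 : ℝ) ≤ N := by exact_mod_cast h3
  have e1 : 1 ≤ Real.log N := by
    rw [Real.le_log_iff_exp_le (by linarith)]
    linarith [Real.exp_one_lt_d9]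
  have e2 : Real.log N ≤ ((l + 1 : ℕ) : ℝ) ^ Q := by
    have a1 : N < 2 ^ (Nat.log 2 N + 1) := Nat.lt_pow_succ_log_self (by norm_num) N
    have a2 : Nat.log 2 N + 1 ≤ (l + 1) ^ Q := Nat.lt_pow_nthRoot_add_one hQ0 _
    have a3 : (N : ℝ) ≤ 2 ^ ((l + 1) ^ Q) := by
      exact_mod_cast a1.le.trans (Nat.pow_le_pow_right (by norm_num) a2)
    have a4 := Real.log_le_log (by linarith) a3
    rw [Real.log_pow] at a4
    have a5 : Real.log 2 ≤ 1 := by linarith [Real.log_two_lt_d9]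
    have a6 : (0 : ℝ) ≤ (((l + 1) ^ Q : ℕ) : ℝ) := by positivity
    have a7 := mul_le_mul_of_nonneg_left a5 a6
    push_cast at a4 a7 ⊢
    linarith
  have hQr : (4 : ℝ) ≤ Q := by exact_mod_cast hQ
  have e3 : Real.log N ^ (2 - ε) ≤ Real.log N ^ (((2 * Q - 8 : ℕ) : ℝ) / Q) := by
    refine Real.rpow_le_rpow_of_exponent_le e1 ?_
    rw [le_div_iff₀ (by linarith), Nat.cast_sub (by omega)]
    push_cast
    nlinarith
  have e4 : Real.log N ^ (((2 * Q - 8 : ℕ) : ℝ) / Q) ≤ ((l + 1 : ℕ) : ℝ) ^ (2 * Q - 8) := by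
    refine (Real.rpow_le_rpow (by linarith) e2 (by positivity)).trans (le_of_eq ?_)
    rw [← Real.rpow_natCast, ← Real.rpow_mul (by positivity), mul_div_cancel₀ _ (by linarith),
      Real.rpow_natCast]
  have e5 : (l + 1) ^ (2 * Q - 8) + 1 ≤ l ^ (2 * Q - 5) := by
    have hp : 1 ≤ 2 ^ (2 * Q - 8) := Nat.one_le_two_pow
    have a1 : (l + 1) ^ (2 * Q - 8) ≤ l * l ^ (2 * Q - 8) := by
      calc (l + 1) ^ (2 * Q - 8) ≤ (2 * l) ^ (2 * Q - 8) := Nat.pow_le_pow_left (by omega) _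
        _ = 2 ^ (2 * Q - 8) * l ^ (2 * Q - 8) := mul_pow _ _ _
        _ ≤ _ := Nat.mul_le_mul_right _ (by omega)
    have a2 : l ^ (2 * Q - 5) = l * l ^ (2 * Q - 8) * (l * l) := by
      rw [show 2 * Q - 5 = (2 * Q - 8) + 3 by omega]
      ring
    have a3 : 1 ≤ l * l ^ (2 * Q - 8) := Nat.mul_pos (by omega) (Nat.pow_pos (by omega))
    have a4 : 2 ≤ l * l := by nlinarith
    rw [a2]
    nlinarith
  have e6 : (((l + 1) ^ (2 * Q - 8) + 1 : ℕ) : ℝ) ≤ ((l ^ (2 * Q - 5) : ℕ) : ℝ) := by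
    exact_mod_cast e5
  push_cast at e4 e6 ⊢
  linarith

/-- Simultaneous sparse signed expansions of the generators of an order need many terms. -/
theorem sparse {b : ℕ} (hb : 2 ≤ b) {m : ℕ} (η : Fin m → ℝ) (Δ : ℤ) (hΔ : Δ ≠ 0)
    (o : Fin m → Fin m → Fin m → ℤ) (hq : ∀ i j, Δ * η i * η j = ∑ l, o i j l * η l)
    (s : Fin m) (hirr : Irrational (η s)) (halg : IsAlgebraic ℤ (η s))
    (M : ℕ) (S : ℕ → Finset ℕ) (t : Fin m → ℕ → ℤ) (ht : ∀ j i, |(t j i : ℝ)| ≤ M)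
    (happ : ∀ N j, |η j - val b (S N) id (t j)| ≤ M / (b : ℝ) ^ N) {ε : ℝ} (hε : 0 < ε) :
    ∀ᶠ N : ℕ in atTop, Real.log N ^ (2 - ε) + 1 ≤ ((S N).card : ℝ) := by
  by_contra hcon
  obtain ⟨Q, hQ⟩ := exists_nat_ge (max 4 (8 / ε))
  have hQ4 : 4 ≤ Q := by exact_mod_cast (le_max_left _ _).trans hQ
  have hQε : 8 ≤ Q * ε := (div_le_iff₀ hε).1 ((le_max_right _ _).trans hQ)
  have hQ0 : Q ≠ 0 := by omega
  obtain ⟨U, hU⟩ := Ultrafilter.exists_le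
    (atTop ⊓ 𝓟 {N : ℕ | ¬ Real.log N ^ (2 - ε) + 1 ≤ ((S N).card : ℝ)})
    (h := frequently_iff_neBot.1 (not_eventually.1 hcon))
  have hU1 : (U : Filter ℕ) ≤ atTop := hU.trans inf_le_left
  have hU2 : ∀ᶠ N : ℕ in U, ¬ Real.log N ^ (2 - ε) + 1 ≤ ((S N).card : ℝ) :=
    le_principal_iff.1 (hU.trans inf_le_right)
  let X : Ctx ℕ := ⟨U, fun N => Nat.nthRoot Q (Nat.log 2 N), b, hb, (size_tendsto hQ0).mono_left hU1⟩
  have hS : ∀ᶠ N in X.U, (S N).card ≤ X.ℓ N ^ (2 * Q - 5) := by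
    filter_upwards [hU2, hU1 (size_bound hQ4 hQε)] with N h1 h2
    have := (not_le.1 h1).le.trans h2
    exact_mod_cast this
  have hG : ∀ j, X.Gd S fun _ => t j := fun j =>
    ⟨fun N => X.ℓ N ^ (2 * Q - 5) + M, (Ctx.PL.pow X _).addc M, hS.mono fun N h =>
      ⟨h.trans (Nat.le_add_right _ _), fun a _ => (ht j a).trans
        ((nat_le_pw hb M).trans (pw_le hb (Nat.le_add_left _ _)))⟩⟩
  set W : Fin m → ℕ → ℝ := fun j N => val b (S N) id (t j) with hW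
  have hWb : ∀ j, X.Bd (W j) := fun j => (hG j).bd fun _ => id
  have hsm : ∀ j, X.Sm id ((fun _ => η j) - W j) := fun j =>
    ⟨fun _ => M, Ctx.PL.const X M, Eventually.of_forall fun N => (happ N j).trans (by
      have := nat_le_pw hb M
      show (M : ℝ) / (b : ℝ) ^ N ≤ (b : ℝ) ^ M / (b : ℝ) ^ N
      gcongr)⟩
  have hη : ∀ j, X.Sp (fun _ => ∅) id W fun _ => η j := fun j => by
    simpa using (Ctx.Sp.of_Sm (T := fun _ => ∅) (W := W) (hsm j)).add (Ctx.Sp.gen j)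
  refine Ctx.St.not (X := X) (n := m) hirr halg (Q := Q) (by omega) (2 * Q - 5) (by omega)
    ⟨fun _ => ∅, id, ℕ, S, fun _ => id, fun _ => t, 0, 1, fun _ => (Δ : ℝ), 1, by simp, one_pos,
      ?_, hS, hG, Ctx.O.int X _ Δ, Ctx.Un.int X Δ hΔ, Ctx.O.one X _, ?_, fun i j => ?_, ?_⟩
  · filter_upwards [hU1 (eventually_ge_atTop 1)] with N hN
    rw [Nat.div_one]
    exact (Nat.pow_le_pow_right (by norm_num) (Nat.pow_nthRoot_le_iff.2 (Or.inl hQ0))).trans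
      (Nat.pow_log_le_self 2 (by simpa [Nat.one_le_iff_ne_zero] using hN))
  · have := Ctx.Un.int X 1 one_ne_zero
    rw [Int.cast_one] at this
    exact this
  · have h1 : X.Sp (fun _ => ∅) id W (∑ l, (fun _ => (o i j l : ℝ)) * fun _ => η l) :=
      Ctx.Sp.sum _ _ fun l _ => Ctx.Sp.omul (Ctx.O.int X _ _) (hη l)
    have h2 := Ctx.Sm.bmul (Ctx.Bd.const X Δ)
      ((Ctx.Sm.bmul (hWb i) (hsm j)).add ((hsm i).mulb (Ctx.Bd.const X (η j))))
    have h3 := h1.sub (Ctx.Sp.of_Sm h2)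
    convert h3 using 1
    funext N
    simp only [Pi.mul_apply, Pi.sub_apply, Pi.add_apply, Finset.sum_apply, ← hq i j, hW]
    ring
  · rw [one_mul]
    exact hη s

end Pool.Agent.P.MP_c8ecb2_nt.H39
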