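import Pool.Agent.P.MP_c8ecb2_nt.H39.Span
import Pool.Agent.P.MP_c8ecb2_nt.H39.Comb

set_option autoImplicit false

namespace Pool.Agent.P.MP_c8ecb2_nt.H39

open Filter Finset

theorem points {J : Type} (S : Finset J) (pos : J → ℕ) (x R a : ℕ) (hx : 1 ≤ x)
    (h1 : 3 * (a + 1) ≤ R) (h2 : 2 * (a * a + 1) ≤ R)
    (hS : (S.filter fun c => x < pos c ∧ pos c ≤ x * R ^ 5).card ≤ a)
    (h0 : ∃ c ∈ S, 2 * x * R ^ 3 < pos c ∧ pos c ≤ x * R ^ 4) :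
    ∃ γz : ℕ × ℕ, (∃ c ∈ S, pos c = γz.1) ∧ γz.1 ≤ x * R ^ 4 ∧ 3 * (x * R ^ 2) ≤ γz.1 ∧
      (∀ c ∈ S, pos c < γz.1 → pos c + 3 * (x * R ^ 2) ≤ γz.1) ∧ γz.1 ≤ γz.2 + x * R ^ 2 ∧
      γz.2 + 2 * (x * R) ≤ γz.1 ∧
      ∀ c ∈ (S.filter fun c => pos c < γz.1 ∧ x * R ^ 2 ≤ pos c) ×ˢ
        (S.filter fun c => pos c < γz.1 ∧ x * R ^ 2 ≤ pos c),
        pos c.1 + pos c.2 ≤ γz.2 ∨ γz.2 + 2 * (x * R) < pos c.1 + pos c.2 := by
  obtain ⟨c₀, hc₀, hc₁, hc₂⟩ := h0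
  obtain ⟨z₀, hz1, hz2, hz3⟩ := gap _ pos a (x * R ^ 3) (3 * (x * R ^ 2)) hS
  have hR : 1 ≤ R := by omega
  have e1 : x ≤ x * R ^ 3 := Nat.le_mul_of_pos_right _ (by positivity)
  have e2 : (a + 1) * (3 * (x * R ^ 2)) ≤ x * R ^ 3 := by
    calc (a + 1) * (3 * (x * R ^ 2)) = 3 * (a + 1) * (x * R ^ 2) := by ring
      _ ≤ R * (x * R ^ 2) := Nat.mul_le_mul_right _ h1
      _ = x * R ^ 3 := by ring
  have e3 : x * R ^ 4 ≤ x * R ^ 5 := Nat.mul_le_mul_left _ (Nat.pow_le_pow_right hR (by norm_num))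
  have e4 : z₀ + 3 * (x * R ^ 2) ≤ 2 * x * R ^ 3 := by nlinarith
  have hz4 : ∀ c ∈ S, pos c ≤ z₀ ∨ z₀ + 3 * (x * R ^ 2) < pos c := by
    intro c hc
    by_cases h : x < pos c ∧ pos c ≤ x * R ^ 5
    · exact hz3 c (mem_filter.2 ⟨hc, h⟩)
    · omega
  obtain ⟨c₁, hc₃, hmin⟩ := exists_min_image (S.filter fun c => z₀ < pos c) pos
    ⟨c₀, mem_filter.2 ⟨hc₀, by omega⟩⟩
  have hc₄ := mem_filter.1 hc₃
  have hγ1 : pos c₁ ≤ pos c₀ := hmin c₀ (mem_filter.2 ⟨hc₀, by omega⟩)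
  have hγ2 : z₀ + 3 * (x * R ^ 2) < pos c₁ := by have := hz4 c₁ hc₄.1; omega
  have e5 : x < x * R ^ 2 := by
    have : 2 ≤ R ^ 2 := by nlinarith
    nlinarith
  have hB : (S.filter fun c => pos c < pos c₁ ∧ x * R ^ 2 ≤ pos c).card ≤ a := by
    refine le_trans (card_le_card fun c hc => ?_) hS
    have := mem_filter.1 hc
    exact mem_filter.2 ⟨this.1, by omega, by omega⟩
  obtain ⟨z, hz5, hz6, hz7⟩ := gap ((S.filter fun c => pos c < pos c₁ ∧ x * R ^ 2 ≤ pos c) ×ˢ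
    (S.filter fun c => pos c < pos c₁ ∧ x * R ^ 2 ≤ pos c)) (fun c => pos c.1 + pos c.2) (a * a)
    (pos c₁ - x * R ^ 2) (2 * (x * R)) (by rw [card_product]; exact Nat.mul_le_mul hB hB)
  have e6 : (a * a + 1) * (2 * (x * R)) ≤ x * R ^ 2 := by
    calc (a * a + 1) * (2 * (x * R)) = 2 * (a * a + 1) * (x * R) := by ring
      _ ≤ R * (x * R) := Nat.mul_le_mul_right _ h2
      _ = x * R ^ 2 := by ring
  refine ⟨(pos c₁, z), ⟨c₁, hc₄.1, rfl⟩, by simp only; omega, by simp only; omega, ?_,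
    by simp only; omega, ?_, hz7⟩
  · intro c hc hlt
    simp only at hlt ⊢
    by_cases h : z₀ < pos c
    · have := hmin c (mem_filter.2 ⟨hc, h⟩)
      omega
    · omega
  · simp only
    rw [add_mul, one_mul] at e6
    omega

theorem val_four (b : ℕ) {J : Type} (S : Finset J) (pos : J → ℕ) (t : J → ℤ) (γ lam : ℕ) :
    val b S pos t = val b (S.filter fun c => pos c < γ ∧ pos c < lam) pos t +
      val b (S.filter fun c => pos c < γ ∧ lam ≤ pos c) pos t +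
      val b (S.filter fun c => γ ≤ pos c ∧ pos c < γ + lam) pos t +
      val b (S.filter fun c => γ + lam ≤ pos c) pos t := by
  unfold val
  simp only [sum_filter, ← sum_add_distrib]
  refine sum_congr rfl fun c _ => ?_
  split_ifs <;> first | omega | simp

namespace Ctx

variable {ι : Type} (X : Ctx ι) {n : ℕ}

/-- Few terms with moderate digits. -/
def Gd {J : Type} (S : ι → Finset J) (t : ι → J → ℤ) : Prop :=
  ∃ e, X.PL e ∧ ∀ᶠ k in X.U, (S k).card ≤ e k ∧ ∀ a ∈ S k, |(t k a : ℝ)| ≤ (X.b : ℝ) ^ e k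

variable {X} {J : Type}

theorem Gd.subset {S S' : ι → Finset J} {t : ι → J → ℤ} (h : X.Gd S t) (hS : ∀ k, S' k ⊆ S k) :
    X.Gd S' t := by
  obtain ⟨e, he, h⟩ := h
  exact ⟨e, he, h.mono fun k h =>
    ⟨(card_le_card (hS k)).trans h.1, fun a ha => h.2 a (hS k ha)⟩⟩

theorem Gd.sm {S : ι → Finset J} {t : ι → J → ℤ} (h : X.Gd S t) {pos : ι → J → ℕ} {y : ι → ℕ}
    (hy : ∀ᶠ k in X.U, ∀ a ∈ S k, y k ≤ pos k a) :
    X.Sm y fun k => val X.b (S k) (pos k) (t k) := by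
  obtain ⟨e, he, h⟩ := h
  refine ⟨fun k => e k + e k, he.add he, ?_⟩
  filter_upwards [h, hy] with k h1 h2 using val_abs_le X.hb h2 h1.2 h1.1

theorem Gd.bd {S : ι → Finset J} {t : ι → J → ℤ} (h : X.Gd S t) (pos : ι → J → ℕ) :
    X.Bd fun k => val X.b (S k) (pos k) (t k) :=
  (h.sm (y := fun _ => 0) (Eventually.of_forall fun _ _ _ => Nat.zero_le _)).bd

theorem Gd.O {S : ι → Finset J} {t : ι → J → ℤ} (h : X.Gd S t) {pos : ι → J → ℕ}
    {T : ι → Finset ℕ} (hT : ∀ k, ∀ a ∈ S k, pos k a ∈ T k) :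
    X.O T fun k => val X.b (S k) (pos k) (t k) := by
  obtain ⟨e, he, h⟩ := h
  refine ⟨1, fun k => e k + e k, he.add he, ?_⟩
  filter_upwards [h] with k h1 using val_ap X.hb (hT k) h1.2 h1.1

theorem Gd.prod {S S' : ι → Finset J} {t t' : ι → J → ℤ} (h : X.Gd S t) (h' : X.Gd S' t') :
    X.Gd (fun k => S k ×ˢ S' k) fun k a => t k a.1 * t' k a.2 := by
  obtain ⟨e, he, h⟩ := h
  obtain ⟨e', he', h'⟩ := h'
  refine ⟨fun k => e k * e' k + (e k + e' k), (he.mul he').add (he.add he'), ?_⟩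
  filter_upwards [h, h'] with k h1 h2
  refine ⟨?_, fun a ha => ?_⟩
  · rw [card_product]
    exact (Nat.mul_le_mul h1.1 h2.1).trans (Nat.le_add_right _ _)
  · rw [mem_product] at ha
    push_cast
    rw [abs_mul]
    refine le_trans ?_ (pw_le X.hb (Nat.le_add_left _ _))
    rw [pow_add]
    exact mul_le_mul (h1.2 _ ha.1) (h2.2 _ ha.2) (abs_nonneg _) (by positivity)

theorem block_ex {T : ι → Finset ℕ} {S : ι → Finset J} (pos : ι → J → ℕ) {p : ι → ℕ} {Q C c : ℕ}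
    (a : ι → ℕ) (hQ : 2 ≤ Q) (hc : 0 < c)
    (hT : ∀ᶠ k in X.U, (T k).card ≤ C * X.ℓ k ^ (Q - 2))
    (hp : ∀ᶠ k in X.U, 2 ^ (X.ℓ k ^ Q / c) ≤ p k)
    (hS : ∀ᶠ k in X.U, (S k).card ≤ (a k + 1) * X.ℓ k ^ (Q - 2)) :
    ∃ x : ι → ℕ, ∀ᶠ k in X.U, 2 ^ (X.ℓ k ^ Q / (2 * c)) ≤ x k ∧ x k * (2 ^ X.ℓ k) ^ 5 ≤ p k ∧
      Free (T k) (x k) (x k * (2 ^ X.ℓ k) ^ 5) ∧
      ((S k).filter fun d => x k < pos k d ∧ pos k d ≤ x k * (2 ^ X.ℓ k) ^ 5).card ≤ a k := by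
  apply Eventually.choice (r := fun k x => 2 ^ (X.ℓ k ^ Q / (2 * c)) ≤ x ∧
    x * (2 ^ X.ℓ k) ^ 5 ≤ p k ∧ Free (T k) x (x * (2 ^ X.ℓ k) ^ 5) ∧
      ((S k).filter fun d => x < pos k d ∧ pos k d ≤ x * (2 ^ X.ℓ k) ^ 5).card ≤ a k)
  filter_upwards [hT, hp, hS, X.ev_ge (10 * c * (C + 2))] with k h1 h2 h3 h4
  generalize X.ℓ k = l at *
  have hl : 0 < l := lt_of_lt_of_le (by positivity) h4
  have hl2 : 0 < l ^ (Q - 2) := by positivity
  obtain ⟨i, hi, hf, hcard⟩ := block (S k) (pos k) (T k)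
    (fun i => 2 ^ (l ^ Q / (2 * c)) * ((2 ^ l) ^ 5) ^ i)
    (fun i j hij => Nat.mul_le_mul_left _ (Nat.pow_le_pow_right (by positivity) hij))
    ((C + 2) * l ^ (Q - 2)) (a k) (l ^ (Q - 2)) h3 (by nlinarith)
  simp only [pow_succ _ i, ← mul_assoc] at hf hcard
  refine ⟨2 ^ (l ^ Q / (2 * c)) * ((2 ^ l) ^ 5) ^ i, Nat.le_mul_of_pos_right _ (by positivity),
    le_trans ?_ h2, hf, hcard⟩
  rw [mul_assoc, ← pow_succ, ← pow_mul, ← pow_mul, ← pow_add]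
  apply Nat.pow_le_pow_right (by norm_num)
  have e1 : l * (5 * (i + 1)) ≤ l ^ Q / (2 * c) := by
    rw [Nat.le_div_iff_mul_le (by omega)]
    obtain ⟨q, rfl⟩ := Nat.exists_eq_add_of_le' hQ
    simp only [Nat.add_sub_cancel] at hi
    calc l * (5 * (i + 1)) * (2 * c) ≤ l * (5 * ((C + 2) * l ^ q)) * (2 * c) := by gcongr; omega
      _ = (10 * c * (C + 2)) * (l * l ^ q) := by ring
      _ ≤ l * (l * l ^ q) := Nat.mul_le_mul_right _ h4
      _ = l ^ (q + 2) := by ring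
  have e2 : l ^ Q / (2 * c) + l ^ Q / (2 * c) ≤ l ^ Q / c := by
    rw [Nat.le_div_iff_mul_le hc]
    have := Nat.div_mul_le_self (l ^ Q) (2 * c)
    nlinarith
  omega

theorem liou {α : ℝ} (hirr : Irrational α) (halg : IsAlgebraic ℤ α) {T : ι → Finset ℕ}
    {p x : ι → ℕ} {S : ι → Finset J} {pos : ι → J → ℕ} {t : ι → Fin n → J → ℤ} {δ : ι → ℝ}
    (hG : ∀ j, X.Gd S fun k => t k j) (hδ : X.O T δ) (hu : X.Un δ)
    (ha : X.Sp T p (fun j k => val X.b (S k) (pos k) (t k j)) (δ * fun _ => α))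
    (hx : ∀ᶠ k in X.U, 1 ≤ x k ∧ x k * (2 ^ X.ℓ k) ^ 5 ≤ p k ∧
      Free (T k) (x k) (x k * (2 ^ X.ℓ k) ^ 5)) :
    ∀ᶠ k in X.U, ∃ c ∈ S k, 2 * x k * (2 ^ X.ℓ k) ^ 3 < pos k c ∧
      pos k c ≤ x k * (2 ^ X.ℓ k) ^ 4 := by
  by_contra hcon
  rw [← Ultrafilter.eventually_not] at hcon
  obtain ⟨o₀, o, ho₀, ho, hs⟩ := ha
  have hf : ∀ᶠ k in X.U, 1 ≤ x k ∧ x k ≤ x k * (2 ^ X.ℓ k) ^ 5 ∧
      Free (T k) (x k) (x k * (2 ^ X.ℓ k) ^ 5) :=
    hx.mono fun k h => ⟨h.1, Nat.le_mul_of_pos_right _ (by positivity), h.2.2⟩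
  have h45 : ∀ᶠ k in X.U, x k * (2 ^ X.ℓ k) ^ 4 ≤ x k * (2 ^ X.ℓ k) ^ 5 :=
    Eventually.of_forall fun k =>
      Nat.mul_le_mul_left _ (Nat.pow_le_pow_right (by positivity) (by norm_num))
  obtain ⟨δ₀, hδ₀, hδ₁⟩ := hδ.approx hf
  obtain ⟨q₀, hq₀, hq₁⟩ := ho₀.approx hf
  choose q hq hq' using fun j => (ho j).approx hf
  set H : Fin n → ι → ℝ := fun j k => val X.b ((S k).filter fun c =>
    pos k c ≤ 2 * x k * (2 ^ X.ℓ k) ^ 3) (pos k) (t k j) with hH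
  set Rr : Fin n → ι → ℝ := fun j k => val X.b ((S k).filter fun c =>
    ¬ pos k c ≤ 2 * x k * (2 ^ X.ℓ k) ^ 3) (pos k) (t k j) with hRr
  have hW : (fun j k => val X.b (S k) (pos k) (t k j)) = fun j => H j + Rr j := by
    funext j k
    exact val_split _ _ _ _
  have hs' : X.Sm p ((δ * fun _ => α) - (o₀ + ∑ j, o j * (H j + Rr j))) := by
    have h := hs
    rw [hW] at h
    exact h
  have hHb : ∀ j, X.Bd (H j) := fun j => ((hG j).subset fun k => filter_subset _ _).bd pos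
  have hHd : ∀ j, X.DenE (fun k => 2 * x k * (2 ^ X.ℓ k) ^ 3) (H j) := fun j =>
    Eventually.of_forall fun k => val_den X.hb _ fun c hc => (mem_filter.1 hc).2
  have hRs : ∀ j, X.Sm (fun k => x k * (2 ^ X.ℓ k) ^ 4) (Rr j) := by
    intro j
    refine ((hG j).subset fun k => filter_subset _ _).sm ?_
    filter_upwards [hcon] with k hk c hc
    have h1 := mem_filter.1 hc
    by_contra h2
    exact hk ⟨c, h1.1, by omega, by omega⟩
  have hv : X.DenE (fun k => x k * 2 ^ X.ℓ k + 2 * x k * (2 ^ X.ℓ k) ^ 3) (q₀ + ∑ j, q j * H j) :=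
    (hq₀.mono (Eventually.of_forall fun k => Nat.le_add_right _ _)).add
      (DenE.sum _ _ fun j _ => (hq j).mul (hHd j))
  have hsm : X.Sm (fun k => x k * (2 ^ X.ℓ k) ^ 4) ((δ₀ * fun _ => α) - (q₀ + ∑ j, q j * H j)) := by
    have h1 := hs'.mono (p' := fun k => x k * (2 ^ X.ℓ k) ^ 4) (by
      filter_upwards [hx, h45] with k h1 h2 using h2.trans h1.2.1)
    have h2 := (hδ₁.mono h45).mulb (Bd.const X α)
    have h3 := hq₁.mono h45
    have h4 := Sm.sum univ _ fun j _ => (((hq' j).mono h45).mulb (hHb j)).add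
      (Sm.bmul (ho j).bd (hRs j))
    have := ((h1.sub h2).add h3).add h4
    convert this using 1
    simp only [mul_add, sub_mul, sum_add_distrib, sum_sub_distrib]
    ring
  have hne := hu.ne_of_sm hδ₁ (by
    filter_upwards [hx] with k h
    calc 2 ^ X.ℓ k = 1 * (2 ^ X.ℓ k) ^ 1 := by ring
      _ ≤ _ := Nat.mul_le_mul h.1 (Nat.pow_le_pow_right (by positivity) (by norm_num)))
  have hδb : X.Bd δ₀ := by
    have := hδ.bd.sub hδ₁.bd
    simpa using this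
  obtain ⟨e₁, he₁, hb₁⟩ := hδb
  obtain ⟨e₂, he₂, hb₂⟩ := hsm
  obtain ⟨D, hD⟩ := liouville_form hirr halg X.hb
  have : ∀ᶠ _ : ι in (X.U : Filter ι), False := by
    filter_upwards [hδ₀, hv, hne, hb₁, hb₂, (he₁.add he₂).lt_two_pow,
      (PL.const X (4 * D)).lt_two_pow, hx] with k h1 h2 h3 h4 h5 h6 h7 h8
    have h9 := hD _ (e₁ k + e₂ k) (x k * (2 ^ X.ℓ k) ^ 4) _ _
      (h1.mono X.hb (Nat.le_add_right _ _)) h2 h3
      (h4.trans (pw_le X.hb (Nat.le_add_right _ _))) (h5.trans (by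
        have := pw_le X.hb (Nat.le_add_left (e₂ k) (e₁ k))
        have hb := X.hb
        gcongr))
    have hx1 := h8.1
    generalize 2 ^ X.ℓ k = R at *
    have hR : 1 ≤ R := by omega
    have e1 : R ≤ R ^ 3 := by
      calc R = R ^ 1 := by ring
        _ ≤ _ := Nat.pow_le_pow_right hR (by norm_num)
    have e2 : x k * R ≤ x k * R ^ 3 := Nat.mul_le_mul_left _ e1
    have e3 : R ≤ x k * R := Nat.le_mul_of_pos_left _ hx1
    have e4 : D * (x k * R + 2 * x k * R ^ 3 + (e₁ k + e₂ k) + 1) ≤ D * (4 * (x k * R ^ 3)) :=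
      Nat.mul_le_mul_left _ (by nlinarith)
    have e5 : 0 < x k * R ^ 3 := by positivity
    have e6 : 4 * D * (x k * R ^ 3) < R * (x k * R ^ 3) := Nat.mul_lt_mul_of_pos_right h7 e5
    nlinarith
  exact this.exists.elim fun _ h => h

theorem leib_core {T : ι → Finset ℕ} {p x γ z lam : ι → ℕ} {W A B G R : Fin n → ι → ℝ}
    {Lo Far Δ : ι → ℝ} (i j : Fin n) (hW : ∀ l, W l = A l + B l + G l + R l)
    (hBB : B i * B j = Lo + Far) (hA : ∀ l, X.Bd (A l)) (hB : ∀ l, X.Bd (B l)) (hLo : X.Bd Lo)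
    (dA : ∀ l, X.DenE lam (A l)) (dB : ∀ l, X.DenE (fun k => γ k - 3 * lam k) (B l))
    (dLo : X.DenE z Lo) (sG : ∀ l, X.Sm γ (G l)) (sR : ∀ l, X.Sm (fun k => γ k + lam k) (R l))
    (sF : X.Sm (fun k => z k + 2 * (x k * 2 ^ X.ℓ k)) Far) (hΔ : X.O T Δ)
    (hq : X.Sp T p W (Δ * W i * W j))
    (hx : ∀ᶠ k in X.U, 1 ≤ x k ∧ x k * (2 ^ X.ℓ k) ^ 5 ≤ p k ∧
      Free (T k) (x k) (x k * (2 ^ X.ℓ k) ^ 5))
    (hn : ∀ᶠ k in X.U, γ k + lam k ≤ x k * (2 ^ X.ℓ k) ^ 5 ∧ 3 * lam k ≤ γ k ∧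
      γ k ≤ z k + lam k ∧ z k + 2 * (x k * 2 ^ X.ℓ k) ≤ γ k) :
    ∃ o : Fin n → ι → ℝ, (∀ l, X.O T (o l)) ∧
      X.Sm (fun k => γ k + lam k) (Δ * (Far + W i * G j + W j * G i) - ∑ l, o l * G l) := by
  obtain ⟨o₀, o, ho₀, ho, hs⟩ := hq
  refine ⟨o, ho, ?_⟩
  have hf : ∀ᶠ k in X.U, 1 ≤ x k ∧ x k ≤ x k * (2 ^ X.ℓ k) ^ 5 ∧
      Free (T k) (x k) (x k * (2 ^ X.ℓ k) ^ 5) :=
    hx.mono fun k h => ⟨h.1, Nat.le_mul_of_pos_right _ (by positivity), h.2.2⟩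
  obtain ⟨Δ₀, hΔ₀, hΔ₁⟩ := hΔ.approx hf
  obtain ⟨q₀, hq₀, hq₁⟩ := ho₀.approx hf
  choose q hq hq' using fun j => (ho j).approx hf
  have hy : ∀ᶠ k in X.U, γ k + lam k ≤ x k * (2 ^ X.ℓ k) ^ 5 := hn.mono fun k h => h.1
  have hWb : ∀ l, X.Bd (W l) := fun l => by
    rw [hW l]; exact (((hA l).add (hB l)).add (sG l).bd).add (sR l).bd
  set I : ι → ℝ := Δ₀ * (A i * A j + A i * B j + B i * A j + Lo) - q₀ - ∑ l, q l * (A l + B l) with hI
  set Y : ι → ℝ := Δ * (Far + W i * G j + W j * G i) - ∑ l, o l * G l with hY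
  have dI : X.DenE (fun k => x k * 2 ^ X.ℓ k + z k) I := by
    refine ((hΔ₀.mul ?_).sub (hq₀.mono (Eventually.of_forall fun k => Nat.le_add_right _ _))).sub
      (DenE.sum _ _ fun l _ => (hq l).mul ?_)
    · refine ((DenE.add ?_ ?_).add ?_).add dLo
      · exact ((dA i).mul (dA j)).mono (hn.mono fun k h => by omega)
      · exact ((dA i).mul (dB j)).mono (hn.mono fun k h => by omega)
      · exact ((dB i).mul (dA j)).mono (hn.mono fun k h => by omega)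
    · exact ((dA l).mono (hn.mono fun k h => by omega)).add
        ((dB l).mono (hn.mono fun k h => by omega))
  have sIY : X.Sm (fun k => γ k + lam k) (I + Y) := by
    have h1 := hs.mono (p' := fun k => γ k + lam k) (by
      filter_upwards [hx, hy] with k h1 h2 using h2.trans h1.2.1)
    have h2 := (hΔ₁.mono hy).mulb ((((((hA i).mul (hA j)).add ((hA i).mul (hB j))).add
      ((hB i).mul (hA j))).add hLo))
    have h3 : X.Sm (fun k => γ k + lam k) (G i * G j) :=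
      ((sG i).mul (sG j)).mono (hn.mono fun k h => by omega)
    have h4 := Sm.bmul hΔ.bd ((h3.sub ((sR i).mulb (((hA j).add (hB j)).add (sR j).bd))).sub
      (Sm.bmul ((hA i).add (hB i)) (sR j)))
    have h5 := hq₁.mono hy
    have h6 := Sm.sum univ _ fun l _ => (((hq' l).mono hy).mulb ((hA l).add (hB l))).add
      (Sm.bmul (ho l).bd (sR l))
    have := (((h1.sub h2).add h4).add h5).add h6
    convert this using 1
    have e1 : ∑ l, o l * W l = ∑ l, (((o l - q l) * (A l + B l) + o l * R l) + q l * (A l + B l)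
        + o l * G l) := sum_congr rfl fun l _ => by rw [hW l]; ring
    have e2 : Far = B i * B j - Lo := by rw [hBB]; ring
    rw [hI, hY, e1, sum_add_distrib, sum_add_distrib, hW i, hW j, e2]
    ring
  have sY : X.Sm (fun k => z k + 2 * (x k * 2 ^ X.ℓ k)) Y := by
    have hz : ∀ᶠ k in X.U, z k + 2 * (x k * 2 ^ X.ℓ k) ≤ γ k := hn.mono fun k h => h.2.2.2
    exact (Sm.bmul hΔ.bd ((sF.add (Sm.bmul (hWb i) ((sG j).mono hz))).add
      (Sm.bmul (hWb j) ((sG i).mono hz)))).sub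
      (Sm.sum _ _ fun l _ => Sm.bmul (ho l).bd ((sG l).mono hz))
  have sI : X.Sm (fun k => z k + 2 * (x k * 2 ^ X.ℓ k)) I := by
    have := (sIY.mono (p' := fun k => z k + 2 * (x k * 2 ^ X.ℓ k))
      (hn.mono fun k h => by omega)).sub sY
    simpa using this
  have h0 := dI.eq_zero sI (by
    filter_upwards [hx] with k h
    have : 2 ^ X.ℓ k ≤ x k * 2 ^ X.ℓ k := Nat.le_mul_of_pos_left _ h.1
    omega)
  exact sIY.congr (h0.mono fun k h => by rw [Pi.add_apply, h, zero_add])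

end Ctx

end Pool.Agent.P.MP_c8ecb2_nt.H39
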