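import Pool.Agent.P.MP_c8ecb2_nt.H39.Basic

set_option autoImplicit false

namespace Pool.Agent.P.MP_c8ecb2_nt.H39

open Filter

namespace Ctx

variable {ι : Type} (X : Ctx ι) {n : ℕ}

/-- `y` lies in the span of `1, W` over the coefficient ring, up to precision `p`. -/
def Sp (T : ι → Finset ℕ) (p : ι → ℕ) (W : Fin n → ι → ℝ) (y : ι → ℝ) : Prop :=
  ∃ (o₀ : ι → ℝ) (o : Fin n → ι → ℝ), X.O T o₀ ∧ (∀ j, X.O T (o j)) ∧
    X.Sm p (y - (o₀ + ∑ j, o j * W j))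

variable {X} {T : ι → Finset ℕ} {p : ι → ℕ} {W : Fin n → ι → ℝ}

theorem Sp.add {y y' : ι → ℝ} (h : X.Sp T p W y) (h' : X.Sp T p W y') : X.Sp T p W (y + y') := by
  obtain ⟨a, o, ha, ho, h⟩ := h
  obtain ⟨a', o', ha', ho', h'⟩ := h'
  refine ⟨a + a', fun j => o j + o' j, ha.add ha', fun j => (ho j).add (ho' j), ?_⟩
  have := h.add h'
  convert this using 1
  simp only [add_mul, Finset.sum_add_distrib]
  ring

theorem Sp.omul {u y : ι → ℝ} (hu : X.O T u) (h : X.Sp T p W y) : X.Sp T p W (u * y) := by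
  obtain ⟨a, o, ha, ho, h⟩ := h
  refine ⟨u * a, fun j => u * o j, hu.mul ha, fun j => hu.mul (ho j), ?_⟩
  have := Sm.bmul hu.bd h
  convert this using 1
  simp only [mul_assoc, ← Finset.mul_sum]
  ring

theorem Sp.of_O {u : ι → ℝ} (hu : X.O T u) : X.Sp T p W u :=
  ⟨u, fun _ => 0, hu, fun _ => O.zero X T, by simpa using Sm.zero X p⟩

theorem Sp.of_Sm {u : ι → ℝ} (hu : X.Sm p u) : X.Sp T p W u :=
  ⟨0, fun _ => 0, O.zero X T, fun _ => O.zero X T, by simpa using hu⟩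

theorem Sp.gen (j : Fin n) : X.Sp T p W (W j) := by
  classical
  refine ⟨0, fun i => if i = j then 1 else 0, O.zero X T, fun i => ?_, ?_⟩
  · beta_reduce
    split_ifs
    · exact O.one X T
    · exact O.zero X T
  · simpa using Sm.zero X p

theorem Sp.neg {y : ι → ℝ} (h : X.Sp T p W y) : X.Sp T p W (-y) := by
  have := Sp.omul (O.one X T).neg h
  simpa using this

theorem Sp.sub {y y' : ι → ℝ} (h : X.Sp T p W y) (h' : X.Sp T p W y') : X.Sp T p W (y - y') := by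
  rw [sub_eq_add_neg]; exact h.add h'.neg

theorem Sp.sum {J : Type} (s : Finset J) (f : J → ι → ℝ) (h : ∀ j ∈ s, X.Sp T p W (f j)) :
    X.Sp T p W (∑ j ∈ s, f j) :=
  Finset.sum_induction f (X.Sp T p W) (fun _ _ => Sp.add) (Sp.of_O (O.zero X T)) h

theorem Sp.mono {T' : ι → Finset ℕ} {p' : ι → ℕ} {y : ι → ℝ} (h : X.Sp T p W y)
    (hT : ∀ k, T k ⊆ T' k) (hp : ∀ᶠ k in X.U, p' k ≤ p k) : X.Sp T' p' W y := by
  obtain ⟨a, o, ha, ho, h⟩ := h
  exact ⟨a, o, ha.mono hT, fun j => (ho j).mono hT, h.mono hp⟩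

theorem Sp.bd {y : ι → ℝ} (hW : ∀ j, X.Bd (W j)) (h : X.Sp T p W y) : X.Bd y := by
  obtain ⟨a, o, ha, ho, h⟩ := h
  have := h.bd.add (ha.bd.add (Bd.sum Finset.univ _ fun j _ => (ho j).bd.mul (hW j)))
  simpa using this

theorem Sp.trans {m : ℕ} {W' : Fin m → ι → ℝ} {u y : ι → ℝ} (hu : X.O T u)
    (hW : ∀ j, X.Sp T p W' (u * W j)) (h : X.Sp T p W y) : X.Sp T p W' (u * y) := by
  obtain ⟨a, o, ha, ho, h⟩ := h
  have h1 : X.Sp T p W' (u * (y - (a + ∑ j, o j * W j))) := Sp.of_Sm (Sm.bmul hu.bd h)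
  have h2 : X.Sp T p W' (u * a) := Sp.of_O (hu.mul ha)
  have h3 : X.Sp T p W' (∑ j, o j * (u * W j)) := Sp.sum _ _ fun j _ => Sp.omul (ho j) (hW j)
  have h4 := (h1.add h2).add h3
  convert h4 using 1
  have : ∑ j, o j * (u * W j) = u * ∑ j, o j * W j := by
    rw [Finset.mul_sum]; exact Finset.sum_congr rfl fun j _ => by ring
  rw [this]; ring

theorem Sp.mul {Δ y y' : ι → ℝ} (hΔ : X.O T Δ) (hW : ∀ j, X.Bd (W j))
    (hq : ∀ i j, X.Sp T p W (Δ * W i * W j)) (h : X.Sp T p W y) (h' : X.Sp T p W y') :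
    X.Sp T p W (Δ * y * y') := by
  have key : ∀ i, X.Sp T p W (Δ * W i * y') := by
    intro i
    obtain ⟨a, o, ha, ho, h'⟩ := h'
    have h1 : X.Sp T p W (Δ * W i * (y' - (a + ∑ j, o j * W j))) :=
      Sp.of_Sm (Sm.bmul (hΔ.bd.mul (hW i)) h')
    have h2 : X.Sp T p W ((Δ * a) * W i) := Sp.omul (hΔ.mul ha) (Sp.gen i)
    have h3 : X.Sp T p W (∑ j, o j * (Δ * W i * W j)) := Sp.sum _ _ fun j _ => Sp.omul (ho j) (hq i j)
    have h4 := (h1.add h2).add h3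
    convert h4 using 1
    have : ∑ j, o j * (Δ * W i * W j) = Δ * W i * ∑ j, o j * W j := by
      rw [Finset.mul_sum]; exact Finset.sum_congr rfl fun j _ => by ring
    rw [this]; ring
  obtain ⟨a, o, ha, ho, h⟩ := h
  have h1 : X.Sp T p W ((y - (a + ∑ j, o j * W j)) * (Δ * y')) :=
    Sp.of_Sm (Sm.mulb h (hΔ.bd.mul (h'.bd hW)))
  have h2 : X.Sp T p W ((Δ * a) * y') := Sp.omul (hΔ.mul ha) h'
  have h3 : X.Sp T p W (∑ j, o j * (Δ * W j * y')) := Sp.sum _ _ fun j _ => Sp.omul (ho j) (key j)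
  have h4 := (h1.add h2).add h3
  convert h4 using 1
  have : ∑ j, o j * (Δ * W j * y') = Δ * y' * ∑ j, o j * W j := by
    rw [Finset.mul_sum]; exact Finset.sum_congr rfl fun j _ => by ring
  rw [this]; ring

/-- The algebraic part of the descent step. -/
theorem descend {Δ δ a : ι → ℝ} {W' g o : Fin n → ι → ℝ} (i : Fin n) (hΔ : X.O T Δ)
    (hW : ∀ j, X.Bd (W j)) (hq : ∀ i j, X.Sp T p W (Δ * W i * W j)) (ha : X.Sp T p W (δ * a))
    (hg : ∀ j, X.O T (g j)) (ho : ∀ j, X.O T (o j))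
    (hZ : ∀ j, X.Sm p (Δ * (W' j + W i * g j + W j * g i) - o j)) :
    (∀ j l, X.Sp T p W' ((2 * Δ * g i * g i * Δ * Δ * Δ) * W' j * W' l)) ∧
      X.Sp T p W' ((2 * Δ * g i * g i * δ) * a) := by
  have hu : X.O T (2 * Δ * g i * g i) := (((O.two X T).mul hΔ).mul (hg i)).mul (hg i)
  have fwd : ∀ j, X.Sp T p W (Δ * W' j) := by
    intro j
    have h1 : X.Sp T p W _ := Sp.of_Sm (hZ j)
    have h2 : X.Sp T p W (o j) := Sp.of_O (ho j)
    have h3 : X.Sp T p W ((Δ * g j) * W i) := Sp.omul (hΔ.mul (hg j)) (Sp.gen i)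
    have h4 : X.Sp T p W ((Δ * g i) * W j) := Sp.omul (hΔ.mul (hg i)) (Sp.gen j)
    have := ((h1.add h2).sub h3).sub h4
    convert this using 1
    ring
  have inv : ∀ j, X.Sp T p W' ((2 * Δ * g i * g i) * W j) := by
    intro j
    have h1 : X.Sp T p W' _ := Sp.omul ((O.two X T).mul (hg i)) (Sp.of_Sm (hZ j))
    have h2 : X.Sp T p W' _ := Sp.omul (hg j) (Sp.of_Sm (hZ i))
    have h3 : X.Sp T p W' (2 * g i * o j - g j * o i) :=
      Sp.of_O ((((O.two X T).mul (hg i)).mul (ho j)).sub ((hg j).mul (ho i)))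
    have h4 : X.Sp T p W' ((2 * g i * Δ) * W' j) :=
      Sp.omul (((O.two X T).mul (hg i)).mul hΔ) (Sp.gen j)
    have h5 : X.Sp T p W' ((g j * Δ) * W' i) := Sp.omul ((hg j).mul hΔ) (Sp.gen i)
    have := (((h1.sub h2).add h3).sub h4).add h5
    convert this using 1
    ring
  refine ⟨fun j l => ?_, ?_⟩
  · have := Sp.trans hu inv (Sp.mul hΔ hW hq (fwd j) (fwd l))
    convert this using 1
    ring
  · have := Sp.trans hu inv ha
    convert this using 1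
    ring

end Ctx

end Pool.Agent.P.MP_c8ecb2_nt.H39
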