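import Pool.Agent.P.MP_c8ecb2_nt.H39.Leib

set_option autoImplicit false

namespace Pool.Agent.P.MP_c8ecb2_nt.H39

open Filter Finset

namespace Ctx

variable {ι : Type} (X : Ctx ι) {n : ℕ}

/-- The state of the descent. -/
def St (α : ℝ) (n Q B : ℕ) : Prop :=
  ∃ (T : ι → Finset ℕ) (p : ι → ℕ) (J : Type) (S : ι → Finset J) (pos : ι → J → ℕ)
    (t : ι → Fin n → J → ℤ) (C c : ℕ) (Δ δ : ι → ℝ),
    (∀ᶠ k in X.U, (T k).card ≤ C * X.ℓ k ^ (Q - 2)) ∧ 0 < c ∧
    (∀ᶠ k in X.U, 2 ^ (X.ℓ k ^ Q / c) ≤ p k) ∧ (∀ᶠ k in X.U, (S k).card ≤ X.ℓ k ^ B) ∧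
    (∀ j, X.Gd S fun k => t k j) ∧ X.O T Δ ∧ X.Un Δ ∧ X.O T δ ∧ X.Un δ ∧
    (∀ i j, X.Sp T p (fun j k => val X.b (S k) (pos k) (t k j))
      (Δ * (fun k => val X.b (S k) (pos k) (t k i)) * fun k => val X.b (S k) (pos k) (t k j))) ∧
    X.Sp T p (fun j k => val X.b (S k) (pos k) (t k j)) (δ * fun _ => α)

variable {X} {J : Type}

theorem reduce_ev (S : ι → Finset J) (pos : ι → J → ℕ) (t : ι → Fin n → J → ℤ)
    (hG : ∀ j, X.Gd S fun k => t k j) (hN : X.PL fun k => (S k).card) :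
    ∃ (S' : ι → Finset J) (μ : ι → ℕ), (∀ k, S' k ⊆ S k) ∧
      (∀ k j, val X.b (S' k) (pos k) (t k j) = val X.b (S k) (pos k) (t k j)) ∧ X.PL μ ∧
      ∀ᶠ k in X.U, Val X.b (S' k) (pos k) (t k) (μ k) := by
  choose S' h1 h2 h3 using fun k => reduce X.hb (S k) (pos k) (t k)
  choose e he hG using hG
  have hE := PL.sum univ e fun j _ => he j
  refine ⟨S', fun k => (S k).card * (∑ j, e j k + (S k).card) + 1, h1, h2,
    (hN.mul (hE.add hN)).addc 1, ?_⟩
  filter_upwards [eventually_all.2 hG] with k hk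
  refine h3 k _ _ le_rfl fun j a ha => ((hk j).2 a ha).trans (pw_le X.hb ?_)
  exact single_le_sum (f := fun j => e j k) (fun _ _ => Nat.zero_le _) (mem_univ j)

theorem St.base {α : ℝ} (hirr : Irrational α) (halg : IsAlgebraic ℤ α) {Q B : ℕ} (hQ : 2 ≤ Q)
    (hB : B ≤ Q - 2) : ¬ X.St α n Q B := by
  rintro ⟨T, p, J, S, pos, t, C, c, Δ, δ, hT, hc, hp, hS, hG, -, -, hδ, hδu, -, ha⟩
  obtain ⟨x, hx⟩ := block_ex (S := S) pos (fun _ => 0) hQ hc hT hp (by
    filter_upwards [hS, X.ev_ge 1] with k h1 h2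
    rw [zero_add, one_mul]
    exact h1.trans (Nat.pow_le_pow_right h2 hB))
  have h1 := liou hirr halg hG hδ hδu ha (x := x) (hx.mono fun k h =>
    ⟨le_trans Nat.one_le_two_pow h.1, h.2.1, h.2.2.1⟩)
  obtain ⟨k, hk, c, hc, hc1, hc2⟩ := (hx.and h1).exists
  have h2 := hk.2.2.2
  rw [Nat.le_zero, card_eq_zero, filter_eq_empty_iff] at h2
  have e1 : x k ≤ 2 * x k * (2 ^ X.ℓ k) ^ 3 := by
    calc x k = 1 * x k * 1 := by ring
      _ ≤ _ := by gcongr; norm_num; exact Nat.one_le_pow _ _ (by positivity)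
  have e2 : x k * (2 ^ X.ℓ k) ^ 4 ≤ x k * (2 ^ X.ℓ k) ^ 5 :=
    Nat.mul_le_mul_left _ (Nat.pow_le_pow_right (by positivity) (by norm_num))
  exact h2 hc ⟨by omega, by omega⟩

theorem St.step {α : ℝ} (hirr : Irrational α) (halg : IsAlgebraic ℤ α) {Q A : ℕ} (hQ : 2 ≤ Q)
    (hA : A ≤ Q - 2) (h : X.St α n Q (A + (Q - 2))) : X.St α n Q (A + A) := by
  classical
  obtain ⟨T, p, J, S₀, pos, t, C, c, Δ, δ, hT, hc, hp, hS₀, hG₀, hΔ, hΔu, hδ, hδu, hq, ha⟩ := h
  obtain ⟨S, μ, hsub, hval, hμ, hV⟩ := reduce_ev S₀ pos t hG₀ ((PL.pow X _).mono hS₀)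
  simp only [← hval] at hq ha
  have hG : ∀ j, X.Gd S fun k => t k j := fun j => (hG₀ j).subset hsub
  have hS : ∀ᶠ k in X.U, (S k).card ≤ X.ℓ k ^ (A + (Q - 2)) :=
    hS₀.mono fun k h => (card_le_card (hsub k)).trans h
  obtain ⟨x, hx⟩ := block_ex (S := S) pos (fun k => X.ℓ k ^ A) hQ hc hT hp (by
    filter_upwards [hS] with k h1
    rw [pow_add] at h1
    exact h1.trans (Nat.mul_le_mul_right _ (Nat.le_succ _)))
  have hx' : ∀ᶠ k in X.U, 1 ≤ x k ∧ x k * (2 ^ X.ℓ k) ^ 5 ≤ p k ∧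
      Free (T k) (x k) (x k * (2 ^ X.ℓ k) ^ 5) :=
    hx.mono fun k h => ⟨le_trans Nat.one_le_two_pow h.1, h.2.1, h.2.2.1⟩
  have hl := liou hirr halg hG hδ hδu ha hx'
  have hpts : ∀ᶠ k in X.U, ∃ γz : ℕ × ℕ, (∃ c ∈ S k, pos k c = γz.1) ∧
      γz.1 ≤ x k * (2 ^ X.ℓ k) ^ 4 ∧ 3 * (x k * (2 ^ X.ℓ k) ^ 2) ≤ γz.1 ∧
      (∀ c ∈ S k, pos k c < γz.1 → pos k c + 3 * (x k * (2 ^ X.ℓ k) ^ 2) ≤ γz.1) ∧
      γz.1 ≤ γz.2 + x k * (2 ^ X.ℓ k) ^ 2 ∧ γz.2 + 2 * (x k * 2 ^ X.ℓ k) ≤ γz.1 ∧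
      ∀ c ∈ ((S k).filter fun c => pos k c < γz.1 ∧ x k * (2 ^ X.ℓ k) ^ 2 ≤ pos k c) ×ˢ
        ((S k).filter fun c => pos k c < γz.1 ∧ x k * (2 ^ X.ℓ k) ^ 2 ≤ pos k c),
        pos k c.1 + pos k c.2 ≤ γz.2 ∨ γz.2 + 2 * (x k * 2 ^ X.ℓ k) < pos k c.1 + pos k c.2 := by
    filter_upwards [hx, hx', hl, ((PL.const X 3).mul ((PL.pow X A).addc 1)).lt_two_pow,
      ((PL.const X 2).mul (((PL.pow X A).mul (PL.pow X A)).addc 1)).lt_two_pow] with k h1 h2 h3 h4 h5
    exact points (S k) (pos k) (x k) _ _ h2.1 h4.le h5.le h1.2.2.2 h3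
  obtain ⟨γz, hγz⟩ := hpts.choice
  set γ : ι → ℕ := fun k => (γz k).1 with hγ
  set z : ι → ℕ := fun k => (γz k).2 with hz
  set lam : ι → ℕ := fun k => x k * (2 ^ X.ℓ k) ^ 2 with hlam
  set As : ι → Finset J := fun k => (S k).filter fun c => pos k c < γ k ∧ pos k c < lam k with hAs
  set Bs : ι → Finset J := fun k => (S k).filter fun c => pos k c < γ k ∧ lam k ≤ pos k c with hBs
  set Gs : ι → Finset J := fun k => (S k).filter fun c => γ k ≤ pos k c ∧ pos k c < γ k + lam k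
    with hGs
  set Rs : ι → Finset J := fun k => (S k).filter fun c => γ k + lam k ≤ pos k c with hRs
  set Fs : ι → Finset (J × J) := fun k => (Bs k ×ˢ Bs k).filter fun c =>
    ¬ pos k c.1 + pos k c.2 ≤ z k with hFs
  set W : Fin n → ι → ℝ := fun j k => val X.b (S k) (pos k) (t k j) with hW
  set G : Fin n → ι → ℝ := fun j k => val X.b (Gs k) (pos k) (t k j) with hGdef
  set Far : Fin n → Fin n → ι → ℝ := fun i j k => val X.b (Fs k) (fun c => pos k c.1 + pos k c.2)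
    (fun c => t k i c.1 * t k j c.2) with hFar
  have gA : ∀ j, X.Gd As fun k => t k j := fun j => (hG j).subset fun k => filter_subset _ _
  have gB : ∀ j, X.Gd Bs fun k => t k j := fun j => (hG j).subset fun k => filter_subset _ _
  have gG : ∀ j, X.Gd Gs fun k => t k j := fun j => (hG j).subset fun k => filter_subset _ _
  have gR : ∀ j, X.Gd Rs fun k => t k j := fun j => (hG j).subset fun k => filter_subset _ _
  have gF : ∀ i j, X.Gd Fs fun k c => t k i c.1 * t k j c.2 := fun i j =>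
    ((gB i).prod (gB j)).subset fun k => filter_subset _ _
  have hWb : ∀ j, X.Bd (W j) := fun j => (hG j).bd pos
  have sG : ∀ l, X.Sm γ (G l) := fun l =>
    (gG l).sm (Eventually.of_forall fun k c hc => (mem_filter.1 hc).2.1)
  have hn : ∀ᶠ k in X.U, γ k + lam k ≤ x k * (2 ^ X.ℓ k) ^ 5 ∧ 3 * lam k ≤ γ k ∧
      γ k ≤ z k + lam k ∧ z k + 2 * (x k * 2 ^ X.ℓ k) ≤ γ k := by
    filter_upwards [hγz, X.ev_ge 1] with k h h1
    refine ⟨?_, h.2.2.1, h.2.2.2.2.1, h.2.2.2.2.2.1⟩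
    have e1 : 2 ≤ 2 ^ X.ℓ k := by
      calc 2 = 2 ^ 1 := rfl
        _ ≤ _ := Nat.pow_le_pow_right (by norm_num) h1
    have e2 : x k * (2 ^ X.ℓ k) ^ 4 * 2 ≤ x k * (2 ^ X.ℓ k) ^ 5 := by
      rw [pow_succ _ 4, ← mul_assoc]; exact Nat.mul_le_mul_left _ e1
    have e3 := h.2.1
    have e4 := h.2.2.1
    simp only [hγ, hlam]
    omega
  have core : ∀ i j, ∃ o : Fin n → ι → ℝ, (∀ l, X.O T (o l)) ∧
      X.Sm (fun k => γ k + lam k) (Δ * (Far i j + W i * G j + W j * G i) - ∑ l, o l * G l) := by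
    intro i j
    refine leib_core (A := fun j k => val X.b (As k) (pos k) (t k j))
      (B := fun j k => val X.b (Bs k) (pos k) (t k j))
      (R := fun j k => val X.b (Rs k) (pos k) (t k j))
      (Lo := fun k => val X.b ((Bs k ×ˢ Bs k).filter fun c => pos k c.1 + pos k c.2 ≤ z k)
        (fun c => pos k c.1 + pos k c.2) (fun c => t k i c.1 * t k j c.2)) (z := z) i j
      (fun l => funext fun k => val_four _ _ _ _ _ _) (funext fun k => ?_) (fun l => (gA l).bd pos)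
      (fun l => (gB l).bd pos)
      ((((gB i).prod (gB j)).subset fun k => filter_subset _ _).bd _)
      (fun l => Eventually.of_forall fun k => val_den X.hb _ fun c hc => (mem_filter.1 hc).2.2.le)
      (fun l => ?_)
      (Eventually.of_forall fun k => val_den X.hb _ fun c hc => (mem_filter.1 hc).2) sG
      (fun l => (gR l).sm (Eventually.of_forall fun k c hc => (mem_filter.1 hc).2))
      ((gF i j).sm ?_) hΔ (hq i j) hx' hn
    · rw [Pi.mul_apply, val_mul]
      exact val_split _ _ _ _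
    · filter_upwards [hγz] with k h
      refine val_den X.hb _ fun c hc => ?_
      have h1 := mem_filter.1 hc
      have := h.2.2.2.1 c h1.1 h1.2.1
      simp only [hγ, hlam]
      omega
    · filter_upwards [hγz] with k h c hc
      have h1 := mem_filter.1 hc
      have h2 := h.2.2.2.2.2.2 c h1.1
      have h3 := h1.2
      simp only [hz] at h3 ⊢
      omega
  choose o ho hY using core
  have hlam1 : ∀ᶠ k in X.U, 2 ^ X.ℓ k ≤ lam k := by
    filter_upwards [hx'] with k h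
    calc 2 ^ X.ℓ k = 1 * (2 ^ X.ℓ k) ^ 1 := by ring
      _ ≤ _ := Nat.mul_le_mul h.1 (Nat.pow_le_pow_right (by positivity) (by norm_num))
  have hi : ∀ᶠ k in X.U, ∃ i, 1 / (X.b : ℝ) ^ (γ k + μ k) ≤ |G i k| := by
    filter_upwards [hγz, hV, hμ.lt_two_pow, hlam1] with k h h1 h2 h3
    obtain ⟨c, hc, hc'⟩ := h.1
    have := h1 c hc (γ k + lam k) (by simp only [hγ]; omega)
    rw [hc'] at this
    exact this
  obtain ⟨i, hi⟩ := Ultrafilter.eventually_exists_iff.1 hi
  have sF : ∀ j, X.Sm γ (Far i j) := by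
    intro j
    refine Sm.cancel hΔu ?_
    have h1 := ((hY i j).mono (p' := γ) (Eventually.of_forall fun k => Nat.le_add_right _ _)).add
      (Sm.sum univ _ fun l _ => Sm.bmul (ho i j l).bd (sG l))
    have h2 := Sm.bmul hΔ.bd ((Sm.bmul (hWb i) (sG j)).add (Sm.bmul (hWb j) (sG i)))
    have := h1.sub h2
    convert this using 1
    ring
  choose eF heF hF using sF
  have hBc : ∀ᶠ k in X.U, (Bs k).card ≤ X.ℓ k ^ A ∧ (Gs k).card ≤ X.ℓ k ^ A := by
    filter_upwards [hx, hx', hn, X.ev_ge 1] with k h h' h1 h2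
    have e1 : 2 ≤ (2 ^ X.ℓ k) ^ 2 := by
      have : 2 ≤ 2 ^ X.ℓ k := by
        calc 2 = 2 ^ 1 := rfl
          _ ≤ _ := Nat.pow_le_pow_right (by norm_num) h2
      nlinarith
    have e2 : x k < lam k := by
      have := h'.1
      simp only [hlam]
      nlinarith
    constructor
    · refine le_trans (card_le_card fun c hc => ?_) h.2.2.2
      have := mem_filter.1 hc
      exact mem_filter.2 ⟨this.1, by omega, by omega⟩
    · refine le_trans (card_le_card fun c hc => ?_) h.2.2.2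
      have := mem_filter.1 hc
      exact mem_filter.2 ⟨this.1, by omega, by omega⟩
  have hFc : ∀ᶠ k in X.U, (Fs k).card ≤ X.ℓ k ^ (A + A) := by
    filter_upwards [hBc] with k h
    refine (card_filter_le _ _).trans ?_
    rw [card_product, pow_add]
    exact Nat.mul_le_mul h.1 h.1
  obtain ⟨P, μ', hPsub, hPval, hμ', hPV⟩ := reduce_ev Fs (fun k c => pos k c.1 + pos k c.2)
    (fun k j c => t k i c.1 * t k j c.2) (gF i) ((PL.pow X _).mono hFc)
  set ν : ι → ℕ := fun k => μ' k + ∑ j, eF j k with hν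
  have hνp : X.PL ν := hμ'.add (PL.sum univ eF fun j _ => heF j)
  have hPpos : ∀ᶠ k in X.U, ∀ c ∈ P k, γ k - ν k ≤ pos k c.1 + pos k c.2 := by
    filter_upwards [hPV, eventually_all.2 hF] with k h1 h2 c hc
    obtain ⟨m, hm, hmin⟩ := exists_min_image (P k) (fun c => pos k c.1 + pos k c.2) ⟨c, hc⟩
    obtain ⟨j, hj⟩ := h1 m hm (pos k m.1 + pos k m.2 + μ' k +
      ((P k).sup (fun c => pos k c.1 + pos k c.2) + 1)) (Nat.le_add_right _ _)
    rw [filter_true_of_mem fun c' hc' => ⟨hmin c' hc', by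
      have := le_sup (f := fun c : J × J => pos k c.1 + pos k c.2) hc'
      beta_reduce
      omega⟩, hPval] at hj
    have h3 := hj.trans (h2 j)
    have hb := X.hb
    rw [div_le_div_iff₀ (by positivity) (by positivity), one_mul, ← pow_add] at h3
    have h6 : (1 : ℝ) < X.b := by exact_mod_cast (by omega : 1 < X.b)
    have h4 := (pow_le_pow_iff_right₀ h6).1 h3
    have h5 : eF j k ≤ ∑ j, eF j k :=
      single_le_sum (f := fun j => eF j k) (fun _ _ => Nat.zero_le _) (mem_univ j)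
    have h7 := hmin c hc
    simp only [hν] at h7 ⊢
    beta_reduce at h4
    omega
  set T' : ι → Finset ℕ := fun k => T k ∪ (Gs k).image fun c => pos k c - (γ k - ν k) with hT'
  have hTT : ∀ k, T k ⊆ T' k := fun k => subset_union_left
  set g : Fin n → ι → ℝ := fun j k => val X.b (Gs k) (fun c => pos k c - (γ k - ν k)) (t k j)
    with hg
  have hgG : ∀ j k, g j k = (X.b : ℝ) ^ (γ k - ν k) * G j k := fun j k =>
    val_shift X.hb _ fun c hc => (Nat.sub_le _ _).trans (mem_filter.1 hc).2.1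
  have hgO : ∀ j, X.O T' (g j) := fun j =>
    (gG j).O fun k c hc => mem_union_right _ (mem_image_of_mem _ hc)
  have hgU : X.Un (g i) := by
    refine ⟨fun k => ν k + μ k, hνp.add hμ, ?_⟩
    filter_upwards [hi] with k h
    have hb := X.hb
    rw [hgG, abs_mul, abs_of_pos (by positivity : (0 : ℝ) < (X.b : ℝ) ^ (γ k - ν k))]
    refine le_trans ?_ (mul_le_mul_of_nonneg_left h (by positivity))
    rw [mul_one_div, div_le_div_iff₀ (by positivity) (by positivity), one_mul, ← pow_add]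
    exact pw_le hb (by omega)
  have hlp : ∀ᶠ k in X.U, lam k ≤ p k := by
    filter_upwards [hn, hx'] with k h1 h2
    omega
  have hZ : ∀ j, X.Sm lam (Δ * ((fun k => val X.b (P k)
      (fun c => pos k c.1 + pos k c.2 - (γ k - ν k)) (fun c => t k i c.1 * t k j c.2)) +
      W i * g j + W j * g i) - ∑ l, o i j l * g l) := by
    intro j
    have h1 := ((hY i j).mono (p' := fun k => lam k + (γ k - ν k))
      (Eventually.of_forall fun k => by omega)).shift
    refine h1.congr ?_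
    filter_upwards [hPpos] with k hk
    simp only [Pi.sub_apply, Pi.mul_apply, Pi.add_apply, Finset.sum_apply, hgG]
    rw [val_shift X.hb _ hk, hPval, mul_sub, mul_sum]
    congr 1
    · simp only [hFar]; ring
    · exact sum_congr rfl fun l _ => by ring
  obtain ⟨hq', ha'⟩ := descend (T := T') (p := lam) i (hΔ.mono hTT) hWb
    (fun i j => (hq i j).mono hTT hlp) (ha.mono hTT hlp) hgO
    (fun j => O.sum univ _ fun l _ => ((ho i j l).mono hTT).mul (hgO l)) hZ
  have hu : X.O T' (2 * Δ * g i * g i) := (((O.two X T').mul (hΔ.mono hTT)).mul (hgO i)).mul (hgO i)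
  have huU : X.Un (2 * Δ * g i * g i) := (((Un.two X).mul hΔu).mul hgU).mul hgU
  refine ⟨T', lam, J × J, P, fun k c => pos k c.1 + pos k c.2 - (γ k - ν k),
    fun k j c => t k i c.1 * t k j c.2, C + 1, 2 * c, _, _, ?_, by omega, ?_, ?_,
    fun j => (gF i j).subset hPsub,
    ((hu.mul (hΔ.mono hTT)).mul (hΔ.mono hTT)).mul (hΔ.mono hTT),
    ((huU.mul hΔu).mul hΔu).mul hΔu, hu.mul (hδ.mono hTT), huU.mul hδu, hq', ha'⟩
  · filter_upwards [hT, hBc, X.ev_ge 1] with k h1 h2 h3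
    have e1 := Nat.pow_le_pow_right h3 hA
    have e2 := (card_union_le _ _).trans (Nat.add_le_add h1
      ((card_image_le (s := Gs k) (f := fun c => pos k c - (γ k - ν k))).trans (h2.2.trans e1)))
    rw [add_mul, one_mul]
    exact e2
  · filter_upwards [hx] with k h
    exact h.1.trans (Nat.le_mul_of_pos_right _ (by positivity))
  · exact hFc.mono fun k h => (card_le_card (hPsub k)).trans h

theorem St.not {α : ℝ} (hirr : Irrational α) (halg : IsAlgebraic ℤ α) {Q : ℕ} (hQ : 2 ≤ Q) (B : ℕ)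
    (hB : B + 5 ≤ 2 * Q) : ¬ X.St α n Q B := by
  induction B using Nat.strong_induction_on with
  | _ B ih =>
    by_cases h : B ≤ Q - 2
    · exact St.base hirr halg hQ h
    · intro hs
      obtain ⟨A, rfl⟩ : ∃ A, B = A + (Q - 2) := ⟨B - (Q - 2), by omega⟩
      exact ih (A + A) (by omega) (by omega) (hs.step hirr halg hQ (by omega))

end Ctx

end Pool.Agent.P.MP_c8ecb2_nt.H39
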